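import Pool.Agent.Helper84.GVN.Group

/-!
# Project RK: nonamenable groups (definition)
-/

set_option autoImplicit false

namespace Pool.Agent.Helper90.RK

open Pool.Agent.Helper84.GVN

/-- Nonamenable group: the left regular representation on `ℓ²(Λ)` has no almost invariant unit vectors
(Reiter's criterion). -/
def NonAm (Λ : Type) [Group Λ] : Prop :=
  ∃ (F : Finset Λ) (ε : ℝ), 0 < ε ∧ ∀ q : L2 Λ, ‖q‖ = 1 → ∃ g ∈ F, ε ≤ ‖lamU g q - q‖

end Pool.Agent.Helper90.RK
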