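import Pool.Agent.Helper90.RK.GB
import Pool.Agent.Helper84.NI.GA

/-!
# Project RK, block GA: existence of singular value decompositions

PROOF. Copy of `Pool/Agent/Helper84/NI/GA.lean` with `Fin 3` replaced by `Fin N` (eigenvalues of `Aᴴ A`, sorted decreasingly with `Tuple.sort`).
-/

set_option autoImplicit false

open Filter Topology Matrix ComplexOrder

namespace Pool.Agent.Helper90.RK

open Pool.Agent.Helper84.NI

variable {G : Type} [Group G] {N : ℕ}

theorem exists_svd (A : MN N) (hA : ‖A.det‖ = 1) : ∃ (k k' : MN N) (s : Fin N → ℝ), IsU k ∧ IsU k' ∧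
    (∀ i, 0 < s i) ∧ Antitone s ∧ A = k * diagonal (fun i => (s i : ℂ)) * k'ᴴ := by
  have hB : (Aᴴ * A).IsHermitian := isHermitian_conjTranspose_mul_self A
  set e0 : Fin N → ℝ := hB.eigenvalues with he0
  have hpsd : (Aᴴ * A).PosSemidef := posSemidef_conjTranspose_mul_self A
  have hnn : ∀ i, 0 ≤ e0 i := fun i => hpsd.eigenvalues_nonneg i
  have hdet : (∏ i, (e0 i : ℂ)) ≠ 0 := by
    have h := hB.det_eq_prod_eigenvalues
    rw [Matrix.det_mul, Matrix.det_conjTranspose] at h
    intro h0
    have h1 : star A.det * A.det = 0 := h.trans h0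
    have h2 := congrArg norm h1
    rw [norm_mul, norm_star, hA, norm_zero, one_mul] at h2
    exact one_ne_zero h2
  have hpos : ∀ i, 0 < e0 i := by
    intro i
    refine lt_of_le_of_ne (hnn i) fun h0 => hdet ?_
    exact Finset.prod_eq_zero (Finset.mem_univ i) (by rw [← h0]; simp)
  set U : MN N := (hB.eigenvectorUnitary : MN N) with hU
  have hU1 : Uᴴ * U = 1 := by
    have := (Matrix.mem_unitaryGroup_iff').1 hB.eigenvectorUnitary.2
    exact this
  have hsp : Aᴴ * A = U * diagonal (fun i => (e0 i : ℂ)) * Uᴴ := by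
    conv_lhs => rw [hB.spectral_theorem, Unitary.conjStarAlgAut_apply]
    rfl
  -- sorting
  set σ : Equiv.Perm (Fin N) := Tuple.sort (fun i => - e0 i) with hσ
  have hmono : Monotone ((fun i => - e0 i) ∘ σ) := Tuple.monotone_sort _
  set e : Fin N → ℝ := fun i => e0 (σ i) with he
  have hanti : ∀ i j, i ≤ j → e j ≤ e i := by
    intro i j hij
    have := hmono hij
    simp only [Function.comp] at this
    simp only [he]
    linarith
  have hepos : ∀ i, 0 < e i := fun i => hpos _
  set k' : MN N := U.submatrix id σ with hk'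
  have hk'1 : k'ᴴ * k' = 1 := by
    rw [hk', Matrix.conjTranspose_submatrix,
      ← Matrix.submatrix_mul _ _ σ id σ Function.bijective_id, hU1,
      Matrix.submatrix_one _ σ.injective]
  have hk'2 : k' * k'ᴴ = 1 := mul_eq_one_comm.mp hk'1
  have hsp' : Aᴴ * A = k' * diagonal (fun i => (e i : ℂ)) * k'ᴴ := by
    have h3 : diagonal (fun i : Fin N => (e i : ℂ)) = (diagonal (fun i => (e0 i : ℂ))).submatrix σ σ := by
      rw [Matrix.submatrix_diagonal _ _ σ.injective]
      rfl
    rw [hsp, h3, hk', Matrix.conjTranspose_submatrix,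
      ← Matrix.submatrix_mul _ _ id σ σ σ.bijective, ← Matrix.submatrix_mul _ _ id σ id σ.bijective,
      Matrix.submatrix_id_id]
  set s : Fin N → ℝ := fun i => Real.sqrt (e i) with hs
  have hspos : ∀ i, 0 < s i := fun i => Real.sqrt_pos.mpr (hepos i)
  have hs0 : ∀ i, (s i : ℂ) ≠ 0 := fun i => by exact_mod_cast (hspos i).ne'
  have hss : ∀ i, (s i : ℂ) * (s i : ℂ) = (e i : ℂ) := fun i => by
    rw [← Complex.ofReal_mul, Real.mul_self_sqrt (hepos i).le]
  refine ⟨A * k' * diagonal (fun i => ((s i : ℂ))⁻¹), k', s, ?_, hk'1, hspos,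
    fun i j hij => Real.sqrt_le_sqrt (hanti i j hij), ?_⟩
  · unfold IsU
    rw [Matrix.conjTranspose_mul, Matrix.conjTranspose_mul, Matrix.diagonal_conjTranspose]
    have h4 : star (fun i => ((s i : ℂ))⁻¹) = fun i => ((s i : ℂ))⁻¹ := by
      funext i
      simp [Complex.conj_ofReal]
    rw [h4]
    calc diagonal (fun i => ((s i : ℂ))⁻¹) * (k'ᴴ * Aᴴ) * (A * k' * diagonal (fun i => ((s i : ℂ))⁻¹))
        = diagonal (fun i => ((s i : ℂ))⁻¹) * (k'ᴴ * (Aᴴ * A) * k') * diagonal (fun i => ((s i : ℂ))⁻¹) := by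
          simp only [Matrix.mul_assoc]
      _ = diagonal (fun i => ((s i : ℂ))⁻¹) * diagonal (fun i => (e i : ℂ)) *
            diagonal (fun i => ((s i : ℂ))⁻¹) := by
          have h5 : k'ᴴ * (Aᴴ * A) * k' = diagonal (fun i => (e i : ℂ)) := by
            rw [hsp']
            calc k'ᴴ * (k' * diagonal (fun i => (e i : ℂ)) * k'ᴴ) * k'
                = (k'ᴴ * k') * diagonal (fun i => (e i : ℂ)) * (k'ᴴ * k') := by
                  simp only [Matrix.mul_assoc]
              _ = diagonal (fun i => (e i : ℂ)) := by rw [hk'1, Matrix.one_mul, Matrix.mul_one]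
          rw [h5]
      _ = 1 := by
          rw [Matrix.diagonal_mul_diagonal, Matrix.diagonal_mul_diagonal, ← Matrix.diagonal_one]
          congr 1
          funext i
          rw [← hss i]
          field_simp [hs0 i]
  · calc A = A * (k' * k'ᴴ) := by rw [hk'2, Matrix.mul_one]
      _ = A * k' * (diagonal (fun i => ((s i : ℂ))⁻¹) * diagonal (fun i => (s i : ℂ))) * k'ᴴ := by
          have h6 : diagonal (fun i => ((s i : ℂ))⁻¹) * diagonal (fun i => (s i : ℂ)) = 1 := by
            rw [Matrix.diagonal_mul_diagonal, ← Matrix.diagonal_one]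
            congr 1
            funext i
            exact inv_mul_cancel₀ (hs0 i)
          rw [h6, Matrix.mul_one, Matrix.mul_assoc]
      _ = _ := by simp only [Matrix.mul_assoc]

theorem nonempty_sv (P : PH G N) : Nonempty (Sv P) := by
  have h := fun g => exists_svd (P.ι g) (P.det1 g)
  choose k k' s h1 h2 h3 h4 h5 using h
  exact ⟨⟨k, k', s, h1, h2, h3, h4, h5⟩⟩

end Pool.Agent.Helper90.RK
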