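import Pool.Agent.Helper90.RK.Fibre

/-!
# Project RK, block Null: almost every `y` is generic

PROOF. Let `Z = {y | (D b (colM y)).det = 0}`, closed. For fixed `y` the function `t ↦ det (D b (colM (y + t e)))`, `e = ` the columns of the identity matrix (`colM e = 1`, `D b 1 = 1`), is
`det (D b (colM y) + t 1)`, a monic polynomial in `t` of degree `N` (characteristic polynomial), so `{t ∈ ℝ | y + t e ∈ Z}` is finite, of Lebesgue measure zero. By Tonelli (`lintegral_lintegral_swap`, volume on
`YY N` is sigma-finite) and translation invariance: `0 = ∫_y ∫_{t ∈ [0,1]} 1_Z(y + t e) = ∫_{t ∈ [0,1]} volume Z = volume Z`.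
-/

set_option autoImplicit false

open Filter Topology Matrix MeasureTheory

namespace Pool.Agent.Helper90.RK

open Pool.Agent.Helper84.NI

variable {N : ℕ}

/-- the line `t ↦ t e`, `e` the columns of the identity matrix -/
private noncomputable def nullL (N : ℕ) : ℝ →ₗ[ℝ] YY N :=
  LinearMap.toSpanSingleton ℝ (YY N) (fun j i => if i = j then 1 else 0)

private theorem nullL_det (b : Fin N → ℕ) (y : YY N) (t : ℝ) :
    (D b (colM (y + nullL N t))).det = (-(D b (colM y))).charpoly.eval (t : ℂ) := by
  rw [Matrix.eval_charpoly, sub_neg_eq_add]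
  congr 1
  ext i j
  rw [D_apply]
  by_cases hij : i = j
  · subst hij
    simp [nullL, D_apply, colM, add_comm]
  · simp [nullL, D_apply, colM, hij, Matrix.diagonal_apply_ne]

private theorem haar_YY (N : ℕ) : (volume : Measure (YY N)).IsAddHaarMeasure := by
  have h0 : SigmaFinite (volume : Measure (Fin N → ℂ)) := inferInstance
  have h1 : (volume : Measure (Fin N → ℂ)).IsAddHaarMeasure := inferInstance
  have h2 : MeasurableAdd (Fin N → ℂ) := inferInstance
  exact Measure.pi.isAddHaarMeasure (μ := fun _ : Fin N => (volume : Measure (Fin N → ℂ)))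

theorem ae_gen (b : Fin N → ℕ) : ∀ᵐ y ∂(volume : Measure (YY N)), Gen b y := by
  have hcont : Continuous fun y : YY N => (D b (colM y)).det := by
    refine Continuous.matrix_det ?_
    refine continuous_matrix fun i j => ?_
    simp only [D_apply, colM, Matrix.of_apply]
    split_ifs
    · exact (continuous_apply i).comp (continuous_apply j)
    · exact continuous_const
  have hmeas : MeasurableSet {y : YY N | Gen b y} :=
    (isOpen_ne_fun hcont continuous_const).measurableSet
  have hH := haar_YY N
  refine MeasureTheory.ae_mem_of_ae_add_linearMap_mem (nullL N) (volume : Measure ℝ)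
    (volume : Measure (YY N)) hmeas fun y => ?_
  have hfin : {t : ℝ | (-(D b (colM y))).charpoly.eval (t : ℂ) = 0}.Finite := by
    have h1 : {z : ℂ | (-(D b (colM y))).charpoly.IsRoot z}.Finite :=
      Polynomial.finite_setOf_isRoot (Matrix.charpoly_monic _).ne_zero
    exact h1.preimage Complex.ofReal_injective.injOn
  have h2 : ∀ᵐ t ∂(volume : Measure ℝ),
      t ∉ {t : ℝ | (-(D b (colM y))).charpoly.eval (t : ℂ) = 0} :=
    hfin.countable.ae_notMem _
  filter_upwards [h2] with t ht
  show (D b (colM (y + nullL N t))).det ≠ 0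
  rw [nullL_det]
  exact ht

end Pool.Agent.Helper90.RK
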