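import Pool.Agent.Helper90.RK.FRep
import Pool.Agent.Helper90.RK.Null

/-!
# Project RK, block FMul: multiplication operators on `L²((ℂ^N)^N)` (port of helper45's `Fib/MulOp.lean`)
-/

set_option autoImplicit false

open Matrix MeasureTheory
open scoped ENNReal

namespace Pool.Agent.Helper90.RK

open Pool.Agent.Helper84.NI

variable {N : ℕ}

/-- Multiplication by one bounded function. -/
theorem exists_mop_one (m : YY N → ℝ) (hm : Measurable m) (b : ℝ) (hb : ∀ x, |m x| ≤ b) :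
    ∃ T : LL N →L[ℂ] LL N, ∀ f : LL N, (T f : YY N → ℂ) =ᵐ[volume] fun x => (m x : ℂ) * f x := by
  have hmem : ∀ f : LL N, MemLp (fun x => (m x : ℂ) * f x) 2 (volume : Measure (YY N)) := by
    intro f
    refine MemLp.of_le_mul (c := b) (Lp.memLp f) ?_ ?_
    · exact (Complex.measurable_ofReal.comp hm).aestronglyMeasurable.mul (Lp.aestronglyMeasurable f)
    · refine Filter.Eventually.of_forall fun x => ?_
      rw [norm_mul, Complex.norm_real, Real.norm_eq_abs]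
      exact mul_le_mul_of_nonneg_right (hb x) (norm_nonneg _)
  refine ⟨LinearMap.mkContinuous
    { toFun := fun f => (hmem f).toLp _
      map_add' := ?_
      map_smul' := ?_ } b ?_, ?_⟩
  · intro f g
    apply Lp.ext
    filter_upwards [(hmem (f + g)).coeFn_toLp, (hmem f).coeFn_toLp, (hmem g).coeFn_toLp,
      Lp.coeFn_add f g, Lp.coeFn_add ((hmem f).toLp _) ((hmem g).toLp _)] with x h1 h2 h3 h4 h5
    rw [h1, h5, Pi.add_apply, h2, h3, h4, Pi.add_apply]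
    ring
  · intro c f
    apply Lp.ext
    filter_upwards [(hmem (c • f)).coeFn_toLp, (hmem f).coeFn_toLp, Lp.coeFn_smul c f,
      Lp.coeFn_smul c ((hmem f).toLp _)] with x h1 h2 h3 h4
    rw [h1, RingHom.id_apply, h4, Pi.smul_apply, h2, h3, Pi.smul_apply, smul_eq_mul, smul_eq_mul]
    ring
  · intro f
    apply Lp.norm_le_mul_norm_of_ae_le_mul
    filter_upwards [(hmem f).coeFn_toLp] with x h1
    show ‖((hmem f).toLp _ : YY N → ℂ) x‖ ≤ _
    rw [h1, norm_mul, Complex.norm_real, Real.norm_eq_abs]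
    exact mul_le_mul_of_nonneg_right (hb x) (norm_nonneg _)
  · intro f
    exact (hmem f).coeFn_toLp

/-- Multiplication operators. -/
theorem exists_mop : ∃ mop : (YY N → ℝ) → (LL N →L[ℂ] LL N), ∀ m : YY N → ℝ, Measurable m →
    (∃ b, ∀ x, |m x| ≤ b) → ∀ f : LL N, (mop m f : YY N → ℂ) =ᵐ[volume] fun x => (m x : ℂ) * f x := by
  have h : ∀ m : YY N → ℝ, ∃ T : LL N →L[ℂ] LL N, Measurable m → (∃ b, ∀ x, |m x| ≤ b) →
      ∀ f : LL N, (T f : YY N → ℂ) =ᵐ[volume] fun x => (m x : ℂ) * f x := by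
    intro m
    by_cases hm : Measurable m ∧ ∃ b, ∀ x, |m x| ≤ b
    · obtain ⟨h1, b, h2⟩ := hm
      obtain ⟨T, hT⟩ := exists_mop_one m h1 b h2
      exact ⟨T, fun _ _ => hT⟩
    · exact ⟨0, fun h1 h2 => absurd ⟨h1, h2⟩ hm⟩
  choose mop hmop using h
  exact ⟨mop, hmop⟩

/-- Multiplication operators. -/
noncomputable def mop : (YY N → ℝ) → (LL N →L[ℂ] LL N) := exists_mop.choose

theorem mop_ae {m : YY N → ℝ} (hm : Measurable m) (hb : ∃ b, ∀ x, |m x| ≤ b) (f : LL N) :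
    (mop m f : YY N → ℂ) =ᵐ[volume] fun x => (m x : ℂ) * f x := exists_mop.choose_spec m hm hb f

/-- The norm of `L²(ℂ²)` as an integral. -/
theorem norm_sq_int (f : LL N) : ‖f‖ ^ 2 = ∫ x, ‖f x‖ ^ 2 := by
  rw [@norm_sq_eq_re_inner ℂ _ _ _ _ f, L2.inner_def]
  simp_rw [inner_self_eq_norm_sq_to_K]
  rw [← RCLike.reCLM_apply, ← ContinuousLinearMap.integral_comp_comm]
  · refine integral_congr_ae (Filter.Eventually.of_forall fun x => ?_)
    simp only [RCLike.reCLM_apply]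
    norm_cast
  · have := L2.integrable_inner (𝕜 := ℂ) f f
    simp_rw [inner_self_eq_norm_sq_to_K] at this
    exact this

theorem sq_integrable (f : LL N) : Integrable (fun x => ‖f x‖ ^ 2) (volume : Measure (YY N)) :=
  (memLp_two_iff_integrable_sq_norm (Lp.aestronglyMeasurable f)).1 (Lp.memLp f)

theorem mop_sq1 {ι : Type} (S : Finset ι) (m : ι → YY N → ℝ) (hm : ∀ t ∈ S, Measurable (m t))
    (hb : ∀ t ∈ S, ∃ b, ∀ x, |m t x| ≤ b) {b : Fin N → ℕ} (h1 : ∀ x, Gen b x → ∑ t ∈ S, m t x ^ 2 = 1) (f : LL N) :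
    ∑ t ∈ S, ‖mop (m t) f‖ ^ 2 = ‖f‖ ^ 2 := by
  have e1 : ∀ t ∈ S, ‖mop (m t) f‖ ^ 2 = ∫ x, ‖mop (m t) f x‖ ^ 2 := fun t _ => norm_sq_int _
  rw [Finset.sum_congr rfl e1, ← integral_finsetSum S fun t _ => sq_integrable _, norm_sq_int]
  refine integral_congr_ae ?_
  have h2 : ∀ᵐ x : YY N, ∀ t ∈ S, mop (m t) f x = (m t x : ℂ) * f x := by
    refine (Filter.eventually_all_finset S).2 ?_
    intro t ht
    exact mop_ae (hm t ht) (hb t ht) f
  filter_upwards [h2, ae_gen b] with x hx hx0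
  have h3 : ∀ t ∈ S, ‖mop (m t) f x‖ ^ 2 = m t x ^ 2 * ‖f x‖ ^ 2 := by
    intro t ht
    rw [hx t ht, norm_mul, Complex.norm_real, Real.norm_eq_abs, mul_pow, sq_abs]
  rw [Finset.sum_congr rfl h3, ← Finset.sum_mul, h1 x hx0, one_mul]

theorem mop_sq2 {ι : Type} (S : Finset ι) (m m' : ι → YY N → ℝ) (a : ℝ)
    (hm : ∀ t ∈ S, Measurable (m t)) (hb : ∀ t ∈ S, ∃ b, ∀ x, |m t x| ≤ b)
    (hm' : ∀ t ∈ S, Measurable (m' t)) (hb' : ∀ t ∈ S, ∃ b, ∀ x, |m' t x| ≤ b)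
    {b : Fin N → ℕ} (h1 : ∀ x, Gen b x → ∑ t ∈ S, (m t x - m' t x) ^ 2 ≤ a) (f : LL N) :
    ∑ t ∈ S, ‖mop (m t) f - mop (m' t) f‖ ^ 2 ≤ a * ‖f‖ ^ 2 := by
  have e1 : ∀ t ∈ S, ‖mop (m t) f - mop (m' t) f‖ ^ 2 = ∫ x, ‖(mop (m t) f - mop (m' t) f : LL N) x‖ ^ 2 :=
    fun t _ => norm_sq_int _
  rw [Finset.sum_congr rfl e1, ← integral_finsetSum S fun t _ => sq_integrable _, norm_sq_int,
    ← integral_const_mul]
  refine integral_mono_ae (integrable_finsetSum S fun t _ => sq_integrable _)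
    ((sq_integrable f).const_mul a) ?_
  have h2 : ∀ᵐ x : YY N, ∀ t ∈ S, mop (m t) f x = (m t x : ℂ) * f x := by
    refine (Filter.eventually_all_finset S).2 ?_
    intro t ht
    exact mop_ae (hm t ht) (hb t ht) f
  have h2' : ∀ᵐ x : YY N, ∀ t ∈ S, mop (m' t) f x = (m' t x : ℂ) * f x := by
    refine (Filter.eventually_all_finset S).2 ?_
    intro t ht
    exact mop_ae (hm' t ht) (hb' t ht) f
  have h2'' : ∀ᵐ x : YY N, ∀ t ∈ S, (mop (m t) f - mop (m' t) f : LL N) x = mop (m t) f x - mop (m' t) f x := by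
    refine (Filter.eventually_all_finset S).2 ?_
    intro t _
    exact Lp.coeFn_sub _ _
  filter_upwards [h2, h2', h2'', ae_gen b] with x hx hx' hx'' hx0
  have h3 : ∀ t ∈ S, ‖(mop (m t) f - mop (m' t) f : LL N) x‖ ^ 2 = (m t x - m' t x) ^ 2 * ‖f x‖ ^ 2 := by
    intro t ht
    rw [hx'' t ht, hx t ht, hx' t ht, ← sub_mul, norm_mul, ← Complex.ofReal_sub, Complex.norm_real,
      Real.norm_eq_abs, mul_pow, sq_abs]
  rw [Finset.sum_congr rfl h3, ← Finset.sum_mul]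
  exact mul_le_mul_of_nonneg_right (h1 x hx0) (by positivity)

theorem mop_sig (b : Fin N → ℕ) {m : YY N → ℝ} (hm : Hm b m) {C : MN N} (hC : C ∈ GLb b) (f : LL N) :
    sig b C (mop m f) = mop (fun y => m fun j => C⁻¹ *ᵥ y j) (sig b C f) := by
  have hm2 : Measurable fun y : YY N => m fun j => C⁻¹ *ᵥ y j := by
    have hc : Continuous fun y : YY N => (fun j => C⁻¹ *ᵥ y j : YY N) := by fun_prop
    exact hm.meas.comp hc.measurable
  have hb2 : ∃ c, ∀ y : YY N, |m fun j => C⁻¹ *ᵥ y j| ≤ c := by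
    obtain ⟨c, hc⟩ := hm.bdd
    exact ⟨c, fun x => hc _⟩
  apply Lp.ext
  have h1 := sig_ae b hC (mop m f)
  have h2 : (fun x => mop m f (TC b C x)) =ᵐ[volume] fun x => (m (TC b C x) : ℂ) * f (TC b C x) :=
    (TC_mp b hC).quasiMeasurePreserving.ae_eq_comp (mop_ae hm.meas hm.bdd f)
  have h3 := mop_ae hm2 hb2 (sig b C f)
  have h4 := sig_ae b hC f
  filter_upwards [h1, h2, h3, h4] with x e1 e2 e3 e4
  rw [e1, e2, e3, e4]
  congr 2
  have hz : IsBs b fun i => (om b C⁻¹ (b i) : ℂ) := om_bs b (GLb_inv b hC)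
  have h5 := hm.hom _ hz (fun j => C⁻¹ *ᵥ x j)
  rw [← h5]
  congr 1
  funext j i
  unfold TC nrm
  rw [← Matrix.mulVec_mulVec, Matrix.mulVec_diagonal]
  rfl

theorem mop_rot (b : Fin N → ℕ) {m : YY N → ℝ} (hm : Hm b m) {z : Fin N → ℂ} (hz : IsBu b z) (f : LL N) :
    rot b z hz (mop m f) = mop m (rot b z hz f) := by
  apply Lp.ext
  have h1 := rot_ae b z hz (mop m f)
  have h2 : (fun x : YY N => mop m f fun j => z * x j) =ᵐ[volume]
      fun x : YY N => (m (fun j => z * x j) : ℂ) * f fun j => z * x j :=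
    (rot_mp b hz.1 hz.2).quasiMeasurePreserving.ae_eq_comp (mop_ae hm.meas hm.bdd f)
  have h3 := mop_ae hm.meas hm.bdd (rot b z hz f)
  have h4 := rot_ae b z hz f
  filter_upwards [h1, h2, h3, h4] with x e1 e2 e3 e4
  rw [e1, e2, e3, e4]
  congr 2
  exact hm.hom z hz.1 x

end Pool.Agent.Helper90.RK
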