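import Pool.Agent.Helper90.RK.FBall
import Pool.Agent.Helper90.RK.FMul

/-!
# Project RK, FB: the fibre representation on `L²((ℂ^N)^N)`, rotation invariant part

`L` = closed subspace of the elements of `Lp ℂ 2 (volume : Measure (YY N))` invariant under unimodular block scalars, `(π(C) f)(y) = f ((nrm b C⁻¹) y)`,
`v` = normalised indicator function of the unit ball, `mu m` = multiplication by `m`.
-/

set_option autoImplicit false

open Filter Topology Matrix MeasureTheory

namespace Pool.Agent.Helper90.RK

open Pool.Agent.Helper84.NI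

variable {N : ℕ} (b : Fin N → ℕ)

/-- The closed subspace of rotation invariant functions. -/
noncomputable def LR : Submodule ℂ (LL N) where
  carrier := {f | ∀ (z : Fin N → ℂ) (hz : IsBu b z), rot b z hz f = f}
  add_mem' := by
    intro a c ha hc z hz
    rw [map_add, ha z hz, hc z hz]
  zero_mem' := fun z hz => map_zero _
  smul_mem' := by
    intro c x hx z hz
    rw [map_smul, hx z hz]

theorem mem_LR {f : LL N} : f ∈ LR b ↔ ∀ (z : Fin N → ℂ) (hz : IsBu b z), rot b z hz f = f := Iff.rfl

theorem isClosed_LR : IsClosed (LR b : Set (LL N)) := by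
  have h : (LR b : Set (LL N)) = ⋂ (z : Fin N → ℂ) (hz : IsBu b z), {f | rot b z hz f = f} := by
    ext f
    simp [mem_LR]
  rw [h]
  refine isClosed_iInter fun z => isClosed_iInter fun hz => ?_
  exact isClosed_eq (rot b z hz).continuous continuous_id

instance : CompleteSpace (LR b) := (isClosed_LR b).completeSpace_coe

theorem sig_inv {C : MN N} (hC : C ∈ GLb b) (f : LL N) :
    sig b C⁻¹ (sig b C f) = f ∧ sig b C (sig b C⁻¹ f) = f := by
  have hu := isUnit_iff_ne_zero.2 hC.2
  have hCi := GLb_inv b hC
  constructor
  · rw [← sig_mul b hCi hC, Matrix.nonsing_inv_mul _ hu, sig_one]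
  · rw [← sig_mul b hC hCi, Matrix.mul_nonsing_inv _ hu, sig_one]

theorem sig_mem {C : MN N} (hC : C ∈ GLb b) {f : LL N} (hf : f ∈ LR b) : sig b C f ∈ LR b := by
  intro z hz
  rw [rot_sig b z hz hC, hf z hz]

open Classical in
/-- the restricted representation -/
noncomputable def pR (C : MN N) : LR b ≃ₗᵢ[ℂ] LR b :=
  if hC : C ∈ GLb b then
    { toFun := fun f => ⟨sig b C f.1, sig_mem b hC f.2⟩
      invFun := fun f => ⟨sig b C⁻¹ f.1, sig_mem b (GLb_inv b hC) f.2⟩
      left_inv := fun f => Subtype.ext (sig_inv b hC f.1).1
      right_inv := fun f => Subtype.ext (sig_inv b hC f.1).2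
      map_add' := fun f g => Subtype.ext (map_add (sig b C) f.1 g.1)
      map_smul' := fun c f => Subtype.ext (map_smul (sig b C) c f.1)
      norm_map' := fun f => (sig b C).norm_map f.1 }
  else 1

theorem pR_coe {C : MN N} (hC : C ∈ GLb b) (f : LR b) : ((pR b C f : LR b) : LL N) = sig b C f.1 := by
  rw [pR, dif_pos hC]
  rfl

open Classical in
/-- the restricted multiplication operators -/
noncomputable def muR (m : YY N → ℝ) : LR b →L[ℂ] LR b :=
  if h : Hm b m then
    { toFun := fun f => ⟨mop m f.1, fun z hz => by
        rw [mop_rot b h hz, f.2 z hz]⟩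
      map_add' := fun f g => Subtype.ext (map_add (mop m) f.1 g.1)
      map_smul' := fun c f => Subtype.ext (map_smul (mop m) c f.1)
      cont := ((mop m).continuous.comp continuous_subtype_val).subtype_mk _ }
  else 0

theorem muR_coe {m : YY N → ℝ} (h : Hm b m) (f : LR b) : ((muR b m f : LR b) : LL N) = mop m f.1 := by
  rw [muR, dif_pos h]
  rfl

theorem Hm.comp_GLb {b : Fin N → ℕ} {m : YY N → ℝ} (h : Hm b m) {C : MN N} (hC : D b C = C) :
    Hm b fun y => m fun j => C *ᵥ y j where
  meas := h.meas.comp (by
    have : Continuous fun y : YY N => (fun j => C *ᵥ y j : YY N) := by fun_prop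
    exact this.measurable)
  bdd := by
    obtain ⟨c, hc⟩ := h.bdd
    exact ⟨c, fun x => hc _⟩
  hom z hz y := by
    have h2 : ∀ x : Fin N → ℂ, z * x = diagonal z *ᵥ x := by
      intro x
      funext i
      rw [Matrix.mulVec_diagonal, Pi.mul_apply]
    have e : (fun j => C *ᵥ (z * y j)) = fun j => z * (C *ᵥ y j) := by
      funext j
      rw [h2, h2, Matrix.mulVec_mulVec, Matrix.mulVec_mulVec, bs_comm b hz hC]
    change m (fun j => C *ᵥ (z * y j)) = m (fun j => C *ᵥ y j)
    rw [e]
    exact h.hom z hz _

theorem exists_fibM : ∃ (L : Type) (_ : NormedAddCommGroup L) (_ : InnerProductSpace ℂ L)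
    (_ : CompleteSpace L), Nonempty (FibM b L) := by
  obtain ⟨v, hv1, hv2, hv3, hv4⟩ := exists_ball b
  refine ⟨LR b, inferInstance, inferInstance, inferInstance, ⟨?_⟩⟩
  let Φ : Fib b (LR b) :=
    { π := pR b
      mul := by
        intro C E hC hE w
        apply Subtype.ext
        rw [pR_coe b (GLb_mul b hC hE), pR_coe b hC, pR_coe b hE, sig_mul b hC hE]
      scal := by
        intro z C hz hC
        ext1 w
        apply Subtype.ext
        rw [pR_coe b (GLb_mul b (bs_mem b hz) hC), pR_coe b hC]
        exact sig_scal b hz hC w.1 w.2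
      cont := by
        intro w
        have h : ContinuousOn (fun C => ((pR b C w : LR b) : LL N)) (GLb b) := by
          refine (sig_cont b w.1).congr fun C hC => ?_
          exact pR_coe b hC w
        exact continuousOn_iff_continuous_domRestrict.2
          (Continuous.subtype_mk (continuousOn_iff_continuous_domRestrict.1 h) _)
      v := ⟨v, hv2⟩
      nv := hv1
      inv := by
        intro k hk hu
        apply Subtype.ext
        rw [pR_coe b hk]
        exact hv3 k hk hu }
  exact
    { Φ := Φ
      mu := muR b
      pos := by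
        intro C hC
        have h := hv4 C hC
        rw [← pR_coe b hC ⟨v, hv2⟩] at h
        exact h
      sq1 := by
        intro ι S m hm h1 f
        have h := mop_sq1 S m (fun t ht => (hm t ht).meas) (fun t ht => (hm t ht).bdd) h1 f.1
        rw [← Submodule.coe_norm] at h
        rw [← h]
        refine Finset.sum_congr rfl fun t ht => ?_
        rw [← muR_coe b (hm t ht), Submodule.coe_norm]
      sq2 := by
        intro ι S m m' a hm hm' h1 f
        have h := mop_sq2 S m m' a (fun t ht => (hm t ht).meas) (fun t ht => (hm t ht).bdd)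
          (fun t ht => (hm' t ht).meas) (fun t ht => (hm' t ht).bdd) h1 f.1
        rw [← Submodule.coe_norm] at h
        refine le_trans (le_of_eq ?_) h
        refine Finset.sum_congr rfl fun t ht => ?_
        rw [← muR_coe b (hm t ht), ← muR_coe b (hm' t ht), ← Submodule.coe_sub, Submodule.coe_norm]
      equi := by
        intro m C h hC f
        apply Subtype.ext
        change ((pR b C (muR b m f) : LR b) : LL N) =
          ((muR b (fun y => m fun j => C⁻¹ *ᵥ y j) (pR b C f) : LR b) : LL N)
        rw [pR_coe b hC, muR_coe b h, muR_coe b (Hm.comp_GLb h (GLb_inv b hC).1), pR_coe b hC]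
        exact mop_sig b h hC f.1 }

end Pool.Agent.Helper90.RK
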