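import Pool.Agent.Helper84.NI.Geo

/-!
# Project RK (MP_0f6f3f_an, rank theorem): proper projective representations in dimension `N`,
singular values, strata, classes of gaps

`PH G N`: proper map `G → M_N(ℂ)`, multiplicative up to unit scalars, determinants of modulus one.
`Sv P`: singular value decompositions. `Str S`: a stratum: block function `b`, regions `W n`, filters `F n`.
`Cl S r`: the gaps of the singular values are governed by `r` functions `β l` (coarse real rank at most `r`).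
-/

set_option autoImplicit false

open Filter Topology Matrix

namespace Pool.Agent.Helper90.RK

open Pool.Agent.Helper84.NI

/-- `N × N` complex matrices -/
abbrev MN (N : ℕ) : Type := Matrix (Fin N) (Fin N) ℂ

/-- A proper map to `GL(N, ℂ)`, multiplicative up to unit scalars, determinants of modulus one. -/
structure PH (G : Type) [Group G] (N : ℕ) where
  /-- the matrices -/
  ι : G → MN N
  det1 : ∀ g, ‖(ι g).det‖ = 1
  mul' : ∀ g h, ∃ c : ℂ, ‖c‖ = 1 ∧ ι (g * h) = c • (ι g * ι h)
  fin : ∀ R : ℝ, {g | ns (ι g) ≤ R}.Finite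

/-- A singular value decomposition of all the matrices `ι g`. -/
structure Sv {G : Type} [Group G] {N : ℕ} (P : PH G N) where
  /-- left singular vectors -/
  kL : G → MN N
  /-- right singular vectors -/
  kR : G → MN N
  /-- singular values, decreasing -/
  s : G → Fin N → ℝ
  uL : ∀ g, IsU (kL g)
  uR : ∀ g, IsU (kR g)
  pos : ∀ g i, 0 < s g i
  anti : ∀ g, Antitone (s g)
  spec : ∀ g, P.ι g = kL g * diagonal (fun i => (s g i : ℂ)) * (kR g)ᴴ

variable {G : Type} [Group G] {N : ℕ} {P : PH G N}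

namespace Sv

/-- `m_{g,h}(γ) = k'_γ^* h k'_{g⁻¹ γ h}` -/
noncomputable def m (S : Sv P) (g h γ : G) : MN N := (S.kR γ)ᴴ * P.ι h * S.kR (g⁻¹ * γ * h)

/-- `n_{g,h}(γ) = k_γ^* g k_{g⁻¹ γ h}` -/
noncomputable def n (S : Sv P) (g h γ : G) : MN N := (S.kL γ)ᴴ * P.ι g * S.kL (g⁻¹ * γ * h)

/-- `X_γ = diag(1/σ_i)` -/
noncomputable def X (S : Sv P) (γ : G) : MN N := diagonal fun i => ((S.s γ i)⁻¹ : ℂ)

end Sv

/-- The block diagonal part of a matrix. -/
def D (b : Fin N → ℕ) (A : MN N) : MN N := Matrix.of fun i j => if b i = b j then A i j else 0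

/-- Invertible block diagonal matrices. -/
def GLb (b : Fin N → ℕ) : Set (MN N) := {C | D b C = C ∧ C.det ≠ 0}

/-- A stratum: on the filters `F n` the singular values in different blocks are far apart, on the sets
`W n` those in the same block are comparable. -/
structure Str (S : Sv P) where
  /-- block function -/
  b : Fin N → ℕ
  mono : Monotone b
  /-- regions -/
  W : ℕ → Set G
  /-- neighbourhoods of infinity in the regions -/
  F : ℕ → Filter G
  monoF : ∀ n, F n ≤ F (n + 1)
  le : ∀ n, F n ≤ 𝓟 (W n)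
  shift : ∀ (g h : G) (n : ℕ), ∃ n', Tendsto (fun γ => g⁻¹ * γ * h) (F n) (F n')
  gap : ∀ n i j, b i < b j → Tendsto (fun γ => S.s γ j / S.s γ i) (F n) (𝓝 0)
  cpt : ∀ n, ∃ K : ℝ, ∀ γ ∈ W n, ∀ i j, b i = b j → S.s γ i ≤ K * S.s γ j

/-- The Levi cocycle (asymptotic). -/
noncomputable def Str.C {S : Sv P} (T : Str S) (g h γ : G) : MN N := D T.b (S.m g h γ)

/-- The gaps are governed by `r` functions: the gap between `i` and `i + 1` is bounded if and only if the `β l`,
`l ∈ T i`, are bounded. -/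
structure Cl (S : Sv P) (r : ℕ) where
  /-- the gap functions -/
  β : Fin r → G → ℝ
  /-- the functions governing the gap after `i` -/
  T : Fin N → Finset (Fin r)
  up : ∀ i j : Fin N, (j : ℕ) = i + 1 → ∀ R : ℝ, ∃ R' : ℝ, ∀ γ, (∀ l ∈ T i, β l γ ≤ R) →
    S.s γ i ≤ R' * S.s γ j
  dn : ∀ i j : Fin N, (j : ℕ) = i + 1 → ∀ l ∈ T i, ∀ R : ℝ, ∃ R' : ℝ, ∀ γ,
    S.s γ i ≤ R * S.s γ j → β l γ ≤ R'
  qi : ∀ (l : Fin r) (g h : G) (R : ℝ), ∃ R' : ℝ, ∀ γ, β l γ ≤ R → β l (g⁻¹ * γ * h) ≤ R'

open Classical in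
/-- The number of gap functions which are larger than `R`. -/
noncomputable def Cl.num {S : Sv P} {r : ℕ} (c : Cl S r) (R : ℝ) (γ : G) : ℕ :=
  (Finset.univ.filter fun l => R < c.β l γ).card

end Pool.Agent.Helper90.RK
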