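import Pool.Agent.Helper35.AMn.Main
import Pool.Agent.Helper90.RK.Geo

/-!
# Project RK (MP_0f6f3f_an): right amenability for proper projective representations

`am_PH`: for a proper map `P : PH G N` there are finitely supported probability measures `κ k` on `G`, depending
continuously on the flag of the unitary matrix `k` (uniformly), and almost equivariant.
-/

set_option autoImplicit false

open Filter Topology Matrix

namespace Pool.Agent.Helper90.RK

open Pool.Agent.Helper84.NI

variable {G : Type} [Group G] {N : ℕ}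

/-- Right amenability for `P : PH G N` (lower triangular form). -/
theorem am_PH (P : PH G N) (Q : Finset G) {ε : ℝ} (hε : 0 < ε) :
    ∃ (A : Finset G) (κ : MN N → G → ℝ) (d : ℝ), 0 < d ∧ (∀ k t, 0 ≤ κ k t) ∧
      (∀ k t, t ∉ A → κ k t = 0) ∧ (∀ k, IsU k → ∑ t ∈ A, κ k t = 1) ∧
      (∀ h ∈ Q, ∀ k k' : MN N, IsU k → IsU k' →
        (∀ i j : Fin N, i < j → ‖(kᴴ * P.ι h * k') i j‖ ≤ d) →
        ∀ s : Finset G, ∑ t ∈ s, |κ k t - κ k' (h⁻¹ * t)| ≤ ε) ∧
      (∀ ε' : ℝ, 0 < ε' → ∃ d' : ℝ, 0 < d' ∧ ∀ k k' : MN N, IsU k → IsU k' →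
        (∀ i j : Fin N, i < j → ‖(kᴴ * k') i j‖ ≤ d') →
        ∑ t ∈ A, |κ k t - κ k' t| ≤ ε') := by
  classical
  rcases Nat.eq_zero_or_pos N with hN | hN
  · subst hN
    have hfin : (Set.univ : Set G).Finite := by
      refine (P.fin 0).subset fun g _ => ?_
      simp [ns]
    have : Finite G := Set.finite_univ_iff.mp hfin
    have := Fintype.ofFinite G
    have hc : (Fintype.card G : ℝ) ≠ 0 := by
      have : 0 < Fintype.card G := Fintype.card_pos
      exact_mod_cast this.ne'
    refine ⟨Finset.univ, fun _ _ => (Fintype.card G : ℝ)⁻¹, 1, one_pos, fun _ _ => by positivity,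
      fun _ t ht => absurd (Finset.mem_univ t) ht, fun _ _ => ?_, ?_, ?_⟩
    · rw [Finset.sum_const, Finset.card_univ, nsmul_eq_mul, mul_inv_cancel₀ hc]
    · intro h _ k k' _ _ _ s
      simp only [sub_self, abs_zero, Finset.sum_const_zero]
      exact hε.le
    · intro ε' hε'
      refine ⟨1, one_pos, fun k k' _ _ _ => ?_⟩
      simp only [sub_self, abs_zero, Finset.sum_const_zero]
      exact hε'.le
  · obtain ⟨A, κ, d, hd, h1, h2, h3, h4, h5⟩ :=
      Pool.Agent.Helper35.AMn.am_low hN P.mul' P.det1 P.fin Q hε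
    exact ⟨A, κ, d, hd, h1, h2, fun k hk => h3 k hk, fun h hh k k' hk hk' => h4 h hh k k' hk hk',
      h5⟩

end Pool.Agent.Helper90.RK
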