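import Pool.Agent.Helper90.RK.DM

/-!
# Project RK: fibre representations of block diagonal groups (definitions)

`Fib b L`: unitary representation of the invertible block diagonal matrices, trivial on block scalars, with a unit vector fixed by the unitary block
diagonal matrices. `FibM b L`: together with multiplication operators by functions of `y = (y 0, ..., y (N-1))`, `y j ∈ ℂ^N` (columns of the matrix `colM y`).
-/

set_option autoImplicit false

open Filter Topology Matrix MeasureTheory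

namespace Pool.Agent.Helper90.RK

open Pool.Agent.Helper84.NI

variable {N : ℕ}

/-- Nonzero scalars on each block. -/
def IsBs (b : Fin N → ℕ) (z : Fin N → ℂ) : Prop := (∀ i, z i ≠ 0) ∧ ∀ i j, b i = b j → z i = z j

/-- Fibre representation. -/
structure Fib (b : Fin N → ℕ) (L : Type) [NormedAddCommGroup L] [InnerProductSpace ℂ L] where
  /-- the representation of invertible block diagonal matrices -/
  π : MN N → (L ≃ₗᵢ[ℂ] L)
  mul : ∀ C D : MN N, C ∈ GLb b → D ∈ GLb b → ∀ w, π (C * D) w = π C (π D w)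
  scal : ∀ (z : Fin N → ℂ) (C : MN N), IsBs b z → C ∈ GLb b → π (diagonal z * C) = π C
  cont : ∀ w, ContinuousOn (fun C => π C w) (GLb b)
  /-- the invariant unit vector -/
  v : L
  nv : ‖v‖ = 1
  inv : ∀ k : MN N, k ∈ GLb b → IsU k → π k v = v

/-- `N` vectors in `ℂ^N` -/
abbrev YY (N : ℕ) : Type := Fin N → Fin N → ℂ

/-- the matrix with columns `y j` -/
def colM (y : YY N) : MN N := Matrix.of fun i j => y j i

/-- generic `y` -/
def Gen (b : Fin N → ℕ) (y : YY N) : Prop := (D b (colM y)).det ≠ 0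

/-- bounded measurable functions of `y`, invariant under block scalars -/
structure Hm (b : Fin N → ℕ) (m : YY N → ℝ) : Prop where
  meas : Measurable m
  bdd : ∃ c, ∀ y, |m y| ≤ c
  hom : ∀ z : Fin N → ℂ, IsBs b z → ∀ y, m (fun j => z * y j) = m y

/-- The fibre representation together with multiplication operators. -/
structure FibM (b : Fin N → ℕ) (L : Type) [NormedAddCommGroup L] [InnerProductSpace ℂ L] where
  /-- the representation -/
  Φ : Fib b L
  /-- multiplication operators -/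
  mu : (YY N → ℝ) → (L →L[ℂ] L)
  pos : ∀ C ∈ GLb b, 0 < (inner ℂ Φ.v (Φ.π C Φ.v)).re
  sq1 : ∀ {ι : Type} (S : Finset ι) (m : ι → YY N → ℝ), (∀ t ∈ S, Hm b (m t)) →
    (∀ y, Gen b y → ∑ t ∈ S, m t y ^ 2 = 1) → ∀ f, ∑ t ∈ S, ‖mu (m t) f‖ ^ 2 = ‖f‖ ^ 2
  sq2 : ∀ {ι : Type} (S : Finset ι) (m m' : ι → YY N → ℝ) (a : ℝ), (∀ t ∈ S, Hm b (m t)) →
    (∀ t ∈ S, Hm b (m' t)) → (∀ y, Gen b y → ∑ t ∈ S, (m t y - m' t y) ^ 2 ≤ a) →
    ∀ f, ∑ t ∈ S, ‖mu (m t) f - mu (m' t) f‖ ^ 2 ≤ a * ‖f‖ ^ 2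
  equi : ∀ (m : YY N → ℝ) (C : MN N), Hm b m → C ∈ GLb b → ∀ f,
    Φ.π C (mu m f) = mu (fun y => m fun j => C⁻¹ *ᵥ y j) (Φ.π C f)

end Pool.Agent.Helper90.RK
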