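import Pool.Agent.Helper90.RK.GB

/-!
# Project RK, block DM: block diagonal matrices

PROOFS. Entrywise. `det_D_of_tri`: if `A i j = 0` whenever `b i < b j` then `det A = det (D b A)`: in the Leibniz formula a permutation `σ` with a nonzero product satisfies `b (σ i) ≥ b i` for all `i`
(convention!), and then `b (σ i) = b i` for all `i` (the sums agree: `∑ b (σ i) = ∑ b i`), so the products for `A` and `D b A` agree; if `b (σ i) < b i` for some `i` (or `>`), both vanish.
`isCompact_Kb`: closed and bounded in a finite dimensional space. `det_sub_small`: `det` is uniformly continuous on bounded sets: `A ↦ det A - det (D b A)` is continuous and vanishes on the compact set of the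
matrices with entries `≤ R` which are block triangular; or: `A` differs from its block triangular part `A'` by small entries. Work with filters: if `A a` is bounded and `A a i j → 0` for `b i < b j` then
`det (A a) - det (D b (A a)) → 0` (ultrafilters: `tendsto_iff_ultrafilter`, limit `A0` is block triangular).
`D_mul_sub`: `(A B)_ij - (D A D B)_ij = ∑_{k, b k ≠ b i} A_ik B_kj` for `b i = b j`; for `b k > b i` `A_ik → 0`, for `b k < b i = b j` `B_kj → 0`; the other factor is bounded.
`D_star_mul`, `D_mul_star`: for `A a` unitary with `A a i j → 0` for `b i < b j` (or for `b j < b i`): limit `A0` along an ultrafilter is unitary and block triangular, so block diagonal (`unitary_tri`): `D b A0 = A0`.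
`unitary_tri`: let `A` be unitary, `A i j = 0` for `b i < b j`. For every threshold `t` the rows `i` with `b i ≤ t` are supported on the columns `b j ≤ t`, they are orthonormal, and there are as many of them as
such columns, so `∑_{b i ≤ t} ∑_{b j ≤ t} |A i j|^2 = #{b ≤ t}`, and the columns `b j ≤ t` have norm one, so `A i j = 0` for `b i > t ≥ b j`.
-/

set_option autoImplicit false

open Filter Topology Matrix

namespace Pool.Agent.Helper90.RK

open Pool.Agent.Helper84.NI

variable {N : ℕ} (b : Fin N → ℕ)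

theorem D_apply (A : MN N) (i j : Fin N) : D b A i j = if b i = b j then A i j else 0 := rfl

private lemma off60 {A : MN N} (hA : D b A = A) (i k : Fin N) (h : b i ≠ b k) : A i k = 0 := by
  have h1 := congrFun (congrFun hA i) k
  rw [D_apply, if_neg h] at h1
  exact h1.symm

theorem D_D (A : MN N) : D b (D b A) = D b A := by
  ext i j
  rw [D_apply, D_apply]
  split_ifs <;> rfl

theorem D_one : D b (1 : MN N) = 1 := by
  ext i j
  rw [D_apply]
  split_ifs with h
  · rfl
  · rw [Matrix.one_apply, if_neg (fun h' => h (by rw [h']))]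

theorem D_diagonal (z : Fin N → ℂ) : D b (diagonal z) = diagonal z := by
  ext i j
  rw [D_apply]
  split_ifs with h
  · rfl
  · rw [Matrix.diagonal_apply, if_neg (fun h' => h (by rw [h']))]

theorem D_smul (c : ℂ) (A : MN N) : D b (c • A) = c • D b A := by
  ext i j
  rw [D_apply, Matrix.smul_apply, Matrix.smul_apply, D_apply]
  split_ifs
  · rfl
  · rw [smul_zero]

theorem D_sub (A B : MN N) : D b (A - B) = D b A - D b B := by
  ext i j
  rw [D_apply, Matrix.sub_apply, Matrix.sub_apply, D_apply, D_apply]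
  split_ifs
  · rfl
  · rw [sub_zero]

theorem D_star (A : MN N) : D b Aᴴ = (D b A)ᴴ := by
  ext i j
  rw [D_apply, Matrix.conjTranspose_apply, Matrix.conjTranspose_apply, D_apply]
  by_cases h : b i = b j
  · rw [if_pos h, if_pos h.symm]
  · rw [if_neg h, if_neg (fun h' => h h'.symm), star_zero]

theorem D_continuous : Continuous (D b) := by
  refine continuous_matrix fun i j => ?_
  by_cases h : b i = b j
  · have : (fun A : MN N => D b A i j) = fun A => A i j := by
      funext A
      rw [D_apply, if_pos h]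
    rw [this]
    exact continuous_id.matrix_elem i j
  · have : (fun A : MN N => D b A i j) = fun A => 0 := by
      funext A
      rw [D_apply, if_neg h]
    rw [this]
    exact continuous_const

theorem D_mul_left {A : MN N} (hA : D b A = A) (B : MN N) : D b (A * B) = A * D b B := by
  ext i j
  rw [D_apply, Matrix.mul_apply, Matrix.mul_apply]
  by_cases h : b i = b j
  · rw [if_pos h]
    refine Finset.sum_congr rfl fun k _ => ?_
    by_cases hk : b i = b k
    · rw [D_apply, if_pos (by rw [← hk, h])]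
    · rw [off60 b hA i k hk, zero_mul, zero_mul]
  · rw [if_neg h]
    refine (Finset.sum_eq_zero fun k _ => ?_).symm
    by_cases hk : b i = b k
    · rw [D_apply, if_neg (fun h' => h (hk.trans h')), mul_zero]
    · rw [off60 b hA i k hk, zero_mul]

theorem D_mul_right {B : MN N} (hB : D b B = B) (A : MN N) : D b (A * B) = D b A * B := by
  ext i j
  rw [D_apply, Matrix.mul_apply, Matrix.mul_apply]
  by_cases h : b i = b j
  · rw [if_pos h]
    refine Finset.sum_congr rfl fun k _ => ?_
    by_cases hk : b k = b j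
    · rw [D_apply, if_pos (by rw [hk, h])]
    · rw [off60 b hB k j hk, mul_zero, mul_zero]
  · rw [if_neg h]
    refine (Finset.sum_eq_zero fun k _ => ?_).symm
    by_cases hk : b k = b j
    · rw [D_apply, if_neg (fun h' => h (h'.trans hk)), zero_mul]
    · rw [off60 b hB k j hk, mul_zero]

theorem D_inv {A : MN N} (hA : D b A = A) (hd : A.det ≠ 0) : D b A⁻¹ = A⁻¹ := by
  symm
  apply Matrix.inv_eq_right_inv
  rw [← D_mul_left b hA, Matrix.mul_nonsing_inv _ (isUnit_iff_ne_zero.2 hd), D_one]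

theorem GLb_mul {A B : MN N} (hA : A ∈ GLb b) (hB : B ∈ GLb b) : A * B ∈ GLb b := by
  refine ⟨?_, ?_⟩
  · rw [D_mul_left b hA.1, hB.1]
  · rw [Matrix.det_mul]
    exact mul_ne_zero hA.2 hB.2

theorem GLb_inv {A : MN N} (hA : A ∈ GLb b) : A⁻¹ ∈ GLb b := by
  refine ⟨D_inv b hA.1 hA.2, ?_⟩
  intro h
  have h1 := Matrix.mul_nonsing_inv A (isUnit_iff_ne_zero.2 hA.2)
  have h2 := congrArg Matrix.det h1
  rw [Matrix.det_mul, h, mul_zero, Matrix.det_one] at h2
  exact zero_ne_one h2

theorem GLb_one : (1 : MN N) ∈ GLb b := by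
  refine ⟨D_one b, ?_⟩
  rw [Matrix.det_one]
  exact one_ne_zero

theorem det_D_of_tri {A : MN N} (h : ∀ i j, b i < b j → A i j = 0) : A.det = (D b A).det := by
  rw [Matrix.det_apply, Matrix.det_apply]
  refine Finset.sum_congr rfl fun σ _ => ?_
  congr 1
  by_cases hσ : ∀ i, b (σ i) = b i
  · refine Finset.prod_congr rfl fun i _ => ?_
    rw [D_apply, if_pos (hσ i)]
  · obtain ⟨i, hi⟩ : ∃ i, b (σ i) < b i := by
      by_contra hcon
      push Not at hcon hσ
      obtain ⟨j, hj⟩ := hσ
      have h1 : ∑ i, b i < ∑ i, b (σ i) :=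
        Finset.sum_lt_sum (fun i _ => hcon i) ⟨j, Finset.mem_univ j, lt_of_le_of_ne (hcon j) (Ne.symm hj)⟩
      rw [Equiv.sum_comp σ b] at h1
      exact lt_irrefl _ h1
    have e1 : ∏ i, A (σ i) i = 0 := Finset.prod_eq_zero (Finset.mem_univ i) (h _ _ hi)
    have e2 : ∏ i, D b A (σ i) i = 0 :=
      Finset.prod_eq_zero (Finset.mem_univ i) (by rw [D_apply, if_neg hi.ne])
    rw [e1, e2]

private lemma row60 {A : MN N} (hA : IsU A) (i : Fin N) : ∑ k, ‖A i k‖ ^ 2 = 1 := by
  have h1 := congrFun (congrFun hA.mul_star i) i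
  rw [Matrix.mul_apply, Matrix.one_apply_eq] at h1
  have h2 : ∑ k, A i k * Aᴴ k i = ((∑ k, ‖A i k‖ ^ 2 : ℝ) : ℂ) := by
    push_cast
    refine Finset.sum_congr rfl fun k _ => ?_
    rw [Matrix.conjTranspose_apply, ← Complex.mul_conj']
    rfl
  rw [h2] at h1
  exact_mod_cast h1

private lemma col60 {A : MN N} (hA : IsU A) (k : Fin N) : ∑ i, ‖A i k‖ ^ 2 = 1 := by
  have h0 : Aᴴ * A = 1 := hA
  have h1 := congrFun (congrFun h0 k) k
  rw [Matrix.mul_apply, Matrix.one_apply_eq] at h1
  have h2 : ∑ i, Aᴴ k i * A i k = ((∑ i, ‖A i k‖ ^ 2 : ℝ) : ℂ) := by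
    push_cast
    refine Finset.sum_congr rfl fun i _ => ?_
    rw [Matrix.conjTranspose_apply, ← Complex.conj_mul']
    rfl
  rw [h2] at h1
  exact_mod_cast h1

theorem unitary_tri {A : MN N} (hA : IsU A) (h : ∀ i j, b i < b j → A i j = 0) : D b A = A := by
  classical
  ext i j
  rw [D_apply]
  split_ifs with hij
  · rfl
  symm
  rcases lt_or_gt_of_ne hij with hlt | hlt
  · exact h i j hlt
  -- threshold `t = b j`
  let S := Finset.univ.filter (fun k : Fin N => b k ≤ b j)
  have hS : ∀ k, k ∈ S ↔ b k ≤ b j := fun k => by simp [S]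
  have h1 : ∑ i ∈ S, ∑ k ∈ S, ‖A i k‖ ^ 2 = S.card := by
    have e : ∀ i ∈ S, ∑ k ∈ S, ‖A i k‖ ^ 2 = 1 := by
      intro i hi
      rw [← row60 hA i]
      refine Finset.sum_subset (Finset.subset_univ _) fun k _ hk => ?_
      rw [hS] at hi hk
      rw [h i k (by omega), norm_zero]
      norm_num
    rw [Finset.sum_congr rfl e, Finset.sum_const, nsmul_eq_mul, mul_one]
  have h2 : ∑ k ∈ S, ∑ i, ‖A i k‖ ^ 2 = S.card := by
    rw [Finset.sum_congr rfl (fun k _ => col60 hA k), Finset.sum_const, nsmul_eq_mul, mul_one]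
  have h3 : ∑ k ∈ S, ∑ i ∈ Sᶜ, ‖A i k‖ ^ 2 = 0 := by
    rw [Finset.sum_comm] at h1
    have e : ∀ k ∈ S, ∑ i, ‖A i k‖ ^ 2 = ∑ i ∈ S, ‖A i k‖ ^ 2 + ∑ i ∈ Sᶜ, ‖A i k‖ ^ 2 :=
      fun k _ => (Finset.sum_add_sum_compl S _).symm
    rw [Finset.sum_congr rfl e, Finset.sum_add_distrib, h1] at h2
    linarith
  have h4 := (Finset.sum_eq_zero_iff_of_nonneg (fun k _ => Finset.sum_nonneg fun i _ =>
    sq_nonneg ‖A i k‖)).1 h3 j ((hS j).2 le_rfl)
  have h5 := (Finset.sum_eq_zero_iff_of_nonneg (fun i _ => sq_nonneg ‖A i j‖)).1 h4 i (by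
    rw [Finset.mem_compl, hS]
    omega)
  exact norm_eq_zero.1 (pow_eq_zero_iff two_ne_zero |>.1 h5)

theorem unitary_tri' {A : MN N} (hA : IsU A) (h : ∀ i j, b j < b i → A i j = 0) : D b A = A := by
  have h1 := unitary_tri b hA.star (fun i j hij => by
    rw [Matrix.conjTranspose_apply, h j i hij, star_zero])
  rw [D_star] at h1
  exact Matrix.conjTranspose_injective h1

/-- A compact set of invertible block diagonal matrices. -/
def Kb (R r : ℝ) : Set (MN N) := {C | D b C = C ∧ (∀ i j, ‖C i j‖ ≤ R) ∧ r ≤ ‖C.det‖}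

private lemma compact60 (R : ℝ) : IsCompact {C : MN N | ∀ i j, ‖C i j‖ ≤ R} := by
  have h : {C : MN N | ∀ i j, ‖C i j‖ ≤ R} =
      Set.pi Set.univ fun _ : Fin N => Set.pi Set.univ fun _ : Fin N => Metric.closedBall (0 : ℂ) R := by
    ext C
    constructor
    · intro h i _ j _
      exact mem_closedBall_zero_iff.2 (h i j)
    · intro h i j
      exact mem_closedBall_zero_iff.1 (h i trivial j trivial)
  rw [h]
  exact isCompact_univ_pi fun i => isCompact_univ_pi fun j => isCompact_closedBall 0 R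

theorem isCompact_Kb (R r : ℝ) : IsCompact (Kb b R r) := by
  refine (compact60 R).of_isClosed_subset ?_ (fun C hC => hC.2.1)
  have h1 : IsClosed {C : MN N | D b C = C} := isClosed_eq (D_continuous b) continuous_id
  have h2 : IsClosed {C : MN N | ∀ i j, ‖C i j‖ ≤ R} := (compact60 R).isClosed
  have h3 : IsClosed {C : MN N | r ≤ ‖C.det‖} :=
    isClosed_le continuous_const (continuous_id.matrix_det).norm
  exact h1.inter (h2.inter h3)

theorem Kb_sub {R r : ℝ} (hr : 0 < r) : Kb b R r ⊆ GLb b := by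
  rintro C ⟨h1, -, h3⟩
  refine ⟨h1, fun h => ?_⟩
  rw [h, norm_zero] at h3
  linarith

section lim

variable {α : Type} {l : Filter α} {A B : α → MN N} {R : ℝ}

private lemma exists_lim60 (hA : ∀ a i j, ‖A a i j‖ ≤ R) (g : Ultrafilter α) :
    ∃ A0 : MN N, Tendsto A g (𝓝 A0) := by
  obtain ⟨A0, -, h⟩ := (compact60 (N := N) R).ultrafilter_le_nhds (g.map A) (by
    rw [le_principal_iff]
    exact Filter.eventually_map.2 (Filter.Eventually.of_forall fun a => hA a))
  exact ⟨A0, h⟩

private lemma entry60 {A0 : MN N} {g : Filter α} (h : Tendsto A g (𝓝 A0)) (i j : Fin N) :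
    Tendsto (fun a => A a i j) g (𝓝 (A0 i j)) :=
  ((continuous_id.matrix_elem i j).tendsto A0).comp h

theorem det_sub_small (hA : ∀ a i j, ‖A a i j‖ ≤ R)
    (h : ∀ i j, b i < b j → Tendsto (fun a => A a i j) l (𝓝 0)) :
    Tendsto (fun a => (A a).det - (D b (A a)).det) l (𝓝 0) := by
  rw [tendsto_iff_ultrafilter]
  intro g hg
  obtain ⟨A0, hA0⟩ := exists_lim60 hA g
  have h0 : ∀ i j, b i < b j → A0 i j = 0 := fun i j hij =>
    tendsto_nhds_unique (entry60 hA0 i j) ((h i j hij).mono_left hg)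
  have h1 : Tendsto (fun a => (A a).det - (D b (A a)).det) g (𝓝 (A0.det - (D b A0).det)) :=
    ((continuous_id.matrix_det.tendsto A0).comp hA0).sub
      (((D_continuous b).matrix_det.tendsto A0).comp hA0)
  rwa [det_D_of_tri b h0, sub_self] at h1

private lemma mul_tri60 {A0 B0 : MN N} (hA : ∀ i j, b i < b j → A0 i j = 0)
    (hB : ∀ i j, b i < b j → B0 i j = 0) : D b A0 * D b B0 = D b (A0 * B0) := by
  ext i j
  rw [D_apply, Matrix.mul_apply, Matrix.mul_apply]
  by_cases h : b i = b j
  · rw [if_pos h]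
    refine Finset.sum_congr rfl fun k _ => ?_
    rw [D_apply, D_apply]
    rcases lt_trichotomy (b i) (b k) with hk | hk | hk
    · rw [if_neg hk.ne, zero_mul, hA i k hk, zero_mul]
    · rw [if_pos hk, if_pos (by rw [← hk, h])]
    · rw [if_neg hk.ne', zero_mul, hB k j (by omega), mul_zero]
  · rw [if_neg h]
    refine Finset.sum_eq_zero fun k _ => ?_
    rw [D_apply, D_apply]
    by_cases hk : b i = b k
    · rw [if_neg (fun h' => h (hk.trans h')), mul_zero]
    · rw [if_neg hk, zero_mul]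

theorem D_mul_sub (hA : ∀ a i j, ‖A a i j‖ ≤ R) (hB : ∀ a i j, ‖B a i j‖ ≤ R)
    (h : ∀ i j, b i < b j → Tendsto (fun a => A a i j) l (𝓝 0))
    (h' : ∀ i j, b i < b j → Tendsto (fun a => B a i j) l (𝓝 0)) :
    Tendsto (fun a => D b (A a) * D b (B a) - D b (A a * B a)) l (𝓝 0) := by
  rw [tendsto_iff_ultrafilter]
  intro g hg
  obtain ⟨A0, hA0⟩ := exists_lim60 hA g
  obtain ⟨B0, hB0⟩ := exists_lim60 hB g
  have h0 : ∀ i j, b i < b j → A0 i j = 0 := fun i j hij =>
    tendsto_nhds_unique (entry60 hA0 i j) ((h i j hij).mono_left hg)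
  have h0' : ∀ i j, b i < b j → B0 i j = 0 := fun i j hij =>
    tendsto_nhds_unique (entry60 hB0 i j) ((h' i j hij).mono_left hg)
  have h1 : Tendsto (fun a => D b (A a)) g (𝓝 (D b A0)) := ((D_continuous b).tendsto A0).comp hA0
  have h2 : Tendsto (fun a => D b (B a)) g (𝓝 (D b B0)) := ((D_continuous b).tendsto B0).comp hB0
  have h3 : Tendsto (fun a => D b (A a * B a)) g (𝓝 (D b (A0 * B0))) :=
    ((D_continuous b).tendsto (A0 * B0)).comp (hA0.mul hB0)
  have h4 := (h1.mul h2).sub h3
  rwa [mul_tri60 b h0 h0', sub_self] at h4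

private lemma unit_entry60 {A : MN N} (hA : IsU A) (i j : Fin N) : ‖A i j‖ ≤ 1 := by
  have h1 := row60 hA i
  have h2 : ‖A i j‖ ^ 2 ≤ ∑ k, ‖A i k‖ ^ 2 :=
    Finset.single_le_sum (f := fun k => ‖A i k‖ ^ 2) (fun k _ => sq_nonneg _) (Finset.mem_univ j)
  rw [h1] at h2
  nlinarith [norm_nonneg (A i j)]

private lemma lim_unit60 (hA : ∀ a, IsU (A a)) (h : (∀ i j, b i < b j → Tendsto (fun a => A a i j) l (𝓝 0)) ∨
      ∀ i j, b j < b i → Tendsto (fun a => A a i j) l (𝓝 0)) (g : Ultrafilter α) (hg : (g : Filter α) ≤ l) :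
    ∃ A0 : MN N, IsU A0 ∧ D b A0 = A0 ∧ Tendsto (fun a => D b (A a)) g (𝓝 A0) := by
  obtain ⟨A0, hA0⟩ := exists_lim60 (R := 1) (fun a i j => unit_entry60 (hA a) i j) g
  have hU : IsU A0 := by
    have h1 : Tendsto (fun a => (A a)ᴴ * A a) g (𝓝 (A0ᴴ * A0)) :=
      ((continuous_id.matrix_conjTranspose.tendsto A0).comp hA0).mul hA0
    have h2 : (fun a => (A a)ᴴ * A a) = fun _ => (1 : MN N) := by
      funext a
      exact hA a
    rw [h2] at h1
    exact (tendsto_nhds_unique h1 tendsto_const_nhds)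
  have hD : D b A0 = A0 := by
    rcases h with h | h
    · exact unitary_tri b hU fun i j hij =>
        tendsto_nhds_unique (entry60 hA0 i j) ((h i j hij).mono_left hg)
    · exact unitary_tri' b hU fun i j hij =>
        tendsto_nhds_unique (entry60 hA0 i j) ((h i j hij).mono_left hg)
  refine ⟨A0, hU, hD, ?_⟩
  have h1 := ((D_continuous b).tendsto A0).comp hA0
  rwa [hD] at h1

theorem D_star_mul (hA : ∀ a, IsU (A a)) (h : (∀ i j, b i < b j → Tendsto (fun a => A a i j) l (𝓝 0)) ∨
      ∀ i j, b j < b i → Tendsto (fun a => A a i j) l (𝓝 0)) :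
    Tendsto (fun a => (D b (A a))ᴴ * D b (A a)) l (𝓝 1) := by
  rw [tendsto_iff_ultrafilter]
  intro g hg
  obtain ⟨A0, hU, hD, hlim⟩ := lim_unit60 b hA h g hg
  have h1 := ((continuous_id.matrix_conjTranspose.tendsto A0).comp hlim).mul hlim
  have h2 : A0ᴴ * A0 = 1 := hU
  simp only [id_eq, h2] at h1
  exact h1

theorem D_mul_star (hA : ∀ a, IsU (A a)) (h : (∀ i j, b i < b j → Tendsto (fun a => A a i j) l (𝓝 0)) ∨
      ∀ i j, b j < b i → Tendsto (fun a => A a i j) l (𝓝 0)) :
    Tendsto (fun a => D b (A a) * (D b (A a))ᴴ) l (𝓝 1) := by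
  rw [tendsto_iff_ultrafilter]
  intro g hg
  obtain ⟨A0, hU, hD, hlim⟩ := lim_unit60 b hA h g hg
  have h1 := hlim.mul ((continuous_id.matrix_conjTranspose.tendsto A0).comp hlim)
  have h2 : A0 * A0ᴴ = 1 := hU.mul_star
  simp only [id_eq, h2] at h1
  exact h1

end lim

end Pool.Agent.Helper90.RK
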