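import Pool.Agent.Helper90.RK.GC
import Pool.Agent.Helper90.RK.DM

/-!
# Project RK, block GD: asymptotic behaviour of the Levi cocycle on a stratum

PROOFS. As `Pool/Agent/Helper84/NI/GD.lean`, `GE.lean`. `tendsto_m`: `|m_ij| = |n_ij| s_j(γ'')/s_i(γ) ≤ √(ns (ι g)) C s_j(γ)/s_i(γ) → 0` for `b i < b j` (`m_eq`, `norm_n_le`, `s_compare`, `T.gap`).
`tendsto_m'`: the same for `m_{g',h'}(g⁻¹γh)` along `T.F n`: `|m_ij| ≤ √(ns) C s_j(g⁻¹γh)/s_i(g⁻¹γh)` and `ratio_shift` (or `T.shift`).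
`C_compact`: entries `≤ R = √(ns (ι h))`; `|det m| = 1` and `det m - det (D b m) → 0` (`det_sub_small`), so eventually `|det C| ≥ 1/2`.
`C_mul`: `m_mul` (`c • (A B) = m_{gg',hh'}`), `D_mul_sub`, `D_smul`.
`C_left`: `m_{g,1}` is unitary, `D_star_mul`, `D_mul_star` (first alternative). `C_right`: `O γ = D b (n_{1,h}(γ))`; exact identity from `m_eq` (`g = 1`): `(D b m) X(γh) = c • X(γ) (D b n)` entrywise; `n_{1,h}` is
unitary and `|n_ij| = |m_ij| s_i(γ)/s_j(γh) ≤ √(ns (ι h)) C s_i(γ)/s_j(γ) → 0` for `b j < b i`: second alternative of `D_star_mul`.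
`C_one` from `m_one`. `X_compact`: let `z i = s γ (first index of the block of i)` (constant on blocks): `diagonal z * X γ` has diagonal entries in `[1, K]` (`T.cpt`, `anti`), determinant `≥ 1`.
-/

set_option autoImplicit false

open Filter Topology Matrix

namespace Pool.Agent.Helper90.RK

open Pool.Agent.Helper84.NI

variable {G : Type} [Group G] {N : ℕ} {P : PH G N} {S : Sv P} (T : Str S)

namespace Str

theorem tendsto_m (g h : G) (n : ℕ) {i j : Fin N} (hij : T.b i < T.b j) :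
    Tendsto (fun γ => S.m g h γ i j) (T.F n) (𝓝 0) := by
  obtain ⟨C, hC, hc⟩ := S.s_compare g h
  rw [tendsto_zero_iff_norm_tendsto_zero]
  have h1 : Tendsto (fun γ => Real.sqrt (ns (P.ι g)) * C * (S.s γ j / S.s γ i)) (T.F n) (𝓝 0) := by
    have := (T.gap n i j hij).const_mul (Real.sqrt (ns (P.ι g)) * C)
    rwa [mul_zero] at this
  refine squeeze_zero (fun γ => norm_nonneg _) (fun γ => ?_) h1
  obtain ⟨c, hc1, he⟩ := S.m_eq g h γ
  have a1 := S.pos γ i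
  have b2 := S.pos (g⁻¹ * γ * h) j
  have e1 : S.s (g⁻¹ * γ * h) j / S.s γ i ≤ C * (S.s γ j / S.s γ i) := by
    calc S.s (g⁻¹ * γ * h) j / S.s γ i ≤ C * S.s γ j / S.s γ i :=
          div_le_div_of_nonneg_right (hc γ j).1 a1.le
      _ = C * (S.s γ j / S.s γ i) := by ring
  rw [he, norm_mul, hc1, one_mul, norm_mul, Complex.norm_real, Real.norm_of_nonneg (div_pos b2 a1).le]
  calc ‖S.n g h γ i j‖ * (S.s (g⁻¹ * γ * h) j / S.s γ i)
      ≤ Real.sqrt (ns (P.ι g)) * (C * (S.s γ j / S.s γ i)) :=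
        mul_le_mul (S.norm_n_le g h γ _ _) e1 (div_pos b2 a1).le (Real.sqrt_nonneg _)
    _ = Real.sqrt (ns (P.ι g)) * C * (S.s γ j / S.s γ i) := by ring

theorem tendsto_m' (g h g' h' : G) (n : ℕ) {i j : Fin N} (hij : T.b i < T.b j) :
    Tendsto (fun γ => S.m g' h' (g⁻¹ * γ * h) i j) (T.F n) (𝓝 0) := by
  obtain ⟨n', hn'⟩ := T.shift g h n
  exact (T.tendsto_m g' h' n' hij).comp hn'

theorem C_compact (g h : G) : ∃ R r : ℝ, 0 < r ∧ ∀ n, ∀ᶠ γ in T.F n, T.C g h γ ∈ Kb T.b R r := by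
  refine ⟨Real.sqrt (ns (P.ι h)), 1 / 2, by norm_num, fun n => ?_⟩
  have h1 := det_sub_small T.b (A := fun γ => S.m g h γ) (R := Real.sqrt (ns (P.ι h)))
    (fun γ i j => S.norm_m_le g h γ i j) (fun i j hij => T.tendsto_m g h n hij)
  have h2 := h1.norm
  rw [norm_zero] at h2
  filter_upwards [h2.eventually (gt_mem_nhds (show (0:ℝ) < 1 / 2 by norm_num))] with γ hγ
  refine ⟨D_D T.b _, fun i j => ?_, ?_⟩
  · show ‖D T.b (S.m g h γ) i j‖ ≤ _
    rw [D_apply]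
    split_ifs
    · exact S.norm_m_le g h γ i j
    · rw [norm_zero]
      exact Real.sqrt_nonneg _
  · have h3 := S.norm_det_m g h γ
    have h4 : ‖(S.m g h γ).det - (D T.b (S.m g h γ)).det‖ < 1 / 2 := hγ
    have h5 : ‖(S.m g h γ).det‖ ≤ ‖(S.m g h γ).det - (D T.b (S.m g h γ)).det‖ +
        ‖(D T.b (S.m g h γ)).det‖ := by
      have := norm_add_le ((S.m g h γ).det - (D T.b (S.m g h γ)).det) (D T.b (S.m g h γ)).det
      rwa [sub_add_cancel] at this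
    show 1 / 2 ≤ ‖(D T.b (S.m g h γ)).det‖
    linarith

theorem C_mul (g h g' h' : G) : ∃ c : G → ℂ, (∀ γ, ‖c γ‖ = 1) ∧ ∀ n,
    Tendsto (fun γ => c γ • (T.C g h γ * T.C g' h' (g⁻¹ * γ * h)) - T.C (g * g') (h * h') γ) (T.F n) (𝓝 0) := by
  choose c hc1 hc2 using fun γ => S.m_mul g h g' h' γ
  refine ⟨c, hc1, fun n => ?_⟩
  have h1 := D_mul_sub T.b (A := fun γ => S.m g h γ) (B := fun γ => S.m g' h' (g⁻¹ * γ * h))
    (R := max (Real.sqrt (ns (P.ι h))) (Real.sqrt (ns (P.ι h'))))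
    (fun γ i j => (S.norm_m_le g h γ i j).trans (le_max_left _ _))
    (fun γ i j => (S.norm_m_le g' h' _ i j).trans (le_max_right _ _))
    (fun i j hij => T.tendsto_m g h n hij) (fun i j hij => T.tendsto_m' g h g' h' n hij)
  have e : ∀ γ, c γ • (T.C g h γ * T.C g' h' (g⁻¹ * γ * h)) - T.C (g * g') (h * h') γ =
      c γ • (D T.b (S.m g h γ) * D T.b (S.m g' h' (g⁻¹ * γ * h)) -
        D T.b (S.m g h γ * S.m g' h' (g⁻¹ * γ * h))) := by
    intro γ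
    unfold C
    rw [hc2 γ, D_smul, smul_sub]
  simp only [e]
  refine tendsto_pi_nhds.mpr fun i => tendsto_pi_nhds.mpr fun j => ?_
  change Tendsto _ _ (𝓝 ((0 : MN N) i j))
  rw [Matrix.zero_apply, tendsto_zero_iff_norm_tendsto_zero]
  have h3 : Tendsto (fun γ => ‖(D T.b (S.m g h γ) * D T.b (S.m g' h' (g⁻¹ * γ * h)) -
        D T.b (S.m g h γ * S.m g' h' (g⁻¹ * γ * h))) i j‖) (T.F n) (𝓝 0) := by
    have h4 := ((tendsto_pi_nhds.mp (tendsto_pi_nhds.mp h1 i)) j).norm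
    rwa [show ‖(0 : MN N) i j‖ = 0 by rw [Matrix.zero_apply, norm_zero]] at h4
  refine h3.congr fun γ => ?_
  rw [Matrix.smul_apply, smul_eq_mul, norm_mul, hc1, one_mul]

theorem C_one (γ : G) : ∃ c : ℂ, ‖c‖ = 1 ∧ T.C 1 1 γ = c • (1 : MN N) := by
  obtain ⟨c, hc, h⟩ := S.m_one γ
  refine ⟨c, hc, ?_⟩
  unfold C
  rw [h, D_smul, D_one]

theorem C_left (g : G) (n : ℕ) : Tendsto (fun γ => T.C g 1 γ * (T.C g 1 γ)ᴴ) (T.F n) (𝓝 1) := by
  exact D_mul_star T.b (A := fun γ => S.m g 1 γ) (fun γ => S.m_unitary g γ)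
    (Or.inl fun i j hij => T.tendsto_m g 1 n hij)

theorem C_right (h : G) : ∃ O : G → MN N, (∀ γ, D T.b (O γ) = O γ) ∧
    (∀ γ, ∃ c : ℂ, ‖c‖ = 1 ∧ T.C 1 h γ * S.X (γ * h) = c • (S.X γ * O γ)) ∧
    (∀ n, Tendsto (fun γ => (O γ)ᴴ * O γ) (T.F n) (𝓝 1)) := by
  refine ⟨fun γ => D T.b (S.n 1 h γ), fun γ => D_D T.b _, fun γ => ?_, fun n => ?_⟩
  · obtain ⟨c, hc, he⟩ := S.m_eq 1 h γ
    refine ⟨c, hc, ?_⟩
    have hg : (1 : G)⁻¹ * γ * h = γ * h := by rw [inv_one, one_mul]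
    rw [hg] at he
    ext i j
    have hj : (S.s (γ * h) j : ℂ) ≠ 0 := S.ofReal_ne _ j
    have hX : ∀ γ' : G, S.X γ' = diagonal (fun k : Fin N => ((S.s γ' k)⁻¹ : ℂ)) := fun γ' => rfl
    rw [Matrix.smul_apply, hX, hX, Matrix.mul_diagonal, Matrix.diagonal_mul]
    change D T.b (S.m 1 h γ) i j * ((S.s (γ * h) j : ℂ))⁻¹ =
      c * ((S.s γ i : ℂ)⁻¹ * D T.b (S.n 1 h γ) i j)
    rw [D_apply, D_apply]
    split_ifs
    · rw [he]
      push_cast
      field_simp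
    · rw [zero_mul, mul_zero, mul_zero]
  · refine D_star_mul T.b (A := fun γ => S.n 1 h γ) (fun γ => S.n_unitary h γ) (Or.inr fun i j hij => ?_)
    obtain ⟨K, hK, hc⟩ := S.s_compare 1 h
    rw [tendsto_zero_iff_norm_tendsto_zero]
    have h1 : Tendsto (fun γ => Real.sqrt (ns (P.ι h)) * K * (S.s γ i / S.s γ j)) (T.F n) (𝓝 0) := by
      have := (T.gap n j i hij).const_mul (Real.sqrt (ns (P.ι h)) * K)
      rwa [mul_zero] at this
    refine squeeze_zero (fun γ => norm_nonneg _) (fun γ => ?_) h1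
    obtain ⟨c, hc1, he⟩ := S.m_eq 1 h γ
    have a1 := S.pos γ i
    have a2 := S.pos γ j
    have hj2 := S.pos (1⁻¹ * γ * h) j
    have e0 : ‖S.m 1 h γ i j‖ = ‖S.n 1 h γ i j‖ * (S.s (1⁻¹ * γ * h) j / S.s γ i) := by
      rw [he, norm_mul, hc1, one_mul, norm_mul, Complex.norm_real,
        Real.norm_of_nonneg (div_pos hj2 a1).le]
    have e1 : ‖S.n 1 h γ i j‖ = ‖S.m 1 h γ i j‖ * (S.s γ i / S.s (1⁻¹ * γ * h) j) := by
      rw [e0]
      field_simp
    have e2 : S.s γ i / S.s (1⁻¹ * γ * h) j ≤ K * (S.s γ i / S.s γ j) := by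
      rw [div_le_iff₀ hj2]
      have : S.s γ j ≤ K * S.s (1⁻¹ * γ * h) j := (hc γ j).2
      calc S.s γ i = (S.s γ i / S.s γ j) * S.s γ j := by field_simp
        _ ≤ (S.s γ i / S.s γ j) * (K * S.s (1⁻¹ * γ * h) j) :=
            mul_le_mul_of_nonneg_left this (div_pos a1 a2).le
        _ = K * (S.s γ i / S.s γ j) * S.s (1⁻¹ * γ * h) j := by ring
    rw [e1]
    calc ‖S.m 1 h γ i j‖ * (S.s γ i / S.s (1⁻¹ * γ * h) j)
        ≤ Real.sqrt (ns (P.ι h)) * (K * (S.s γ i / S.s γ j)) :=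
          mul_le_mul (S.norm_m_le 1 h γ _ _) e2 (div_pos a1 hj2).le (Real.sqrt_nonneg _)
      _ = Real.sqrt (ns (P.ι h)) * K * (S.s γ i / S.s γ j) := by ring

theorem X_compact (n : ℕ) : ∃ K : ℝ, ∀ γ ∈ T.W n, ∃ z : Fin N → ℂ, (∀ i, z i ≠ 0) ∧
    (∀ i j, T.b i = T.b j → z i = z j) ∧ diagonal z * S.X γ ∈ Kb T.b K 1 := by
  obtain ⟨K, hK⟩ := T.cpt n
  refine ⟨max K 1, fun γ hγ => ?_⟩
  have hf : ∀ i : Fin N, ∃ k : Fin N, T.b k = T.b i ∧ ∀ j, T.b j = T.b i → k ≤ j := by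
    intro i
    obtain ⟨k, hk, hk'⟩ := (Finset.univ.filter fun j => T.b j = T.b i).exists_min_image id
      ⟨i, by simp⟩
    rw [Finset.mem_filter] at hk
    exact ⟨k, hk.2, fun j hj => hk' j (by simp [hj])⟩
  choose f hf1 hf2 using hf
  have hf3 : ∀ i j, T.b i = T.b j → f i = f j := fun i j hij =>
    le_antisymm (hf2 i _ ((hf1 j).trans hij.symm)) (hf2 j _ ((hf1 i).trans hij))
  have hr1 : ∀ i, 1 ≤ S.s γ (f i) / S.s γ i := fun i => by
    rw [le_div_iff₀ (S.pos γ i), one_mul]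
    exact S.anti γ (hf2 i i rfl)
  have hr2 : ∀ i, S.s γ (f i) / S.s γ i ≤ K := fun i => by
    rw [div_le_iff₀ (S.pos γ i)]
    exact hK γ hγ _ _ (hf1 i)
  have e : diagonal (fun i => (S.s γ (f i) : ℂ)) * S.X γ =
      diagonal (fun i => ((S.s γ (f i) / S.s γ i : ℝ) : ℂ)) := by
    unfold Sv.X
    rw [Matrix.diagonal_mul_diagonal]
    congr 1
    funext i
    push_cast
    rw [div_eq_mul_inv]
  have hn : ∀ i, ‖((S.s γ (f i) / S.s γ i : ℝ) : ℂ)‖ = S.s γ (f i) / S.s γ i := fun i => by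
    rw [Complex.norm_real, Real.norm_of_nonneg (zero_le_one.trans (hr1 i))]
  refine ⟨fun i => (S.s γ (f i) : ℂ), fun i => S.ofReal_ne γ _, fun i j hij => ?_, ?_⟩
  · show (S.s γ (f i) : ℂ) = (S.s γ (f j) : ℂ)
    rw [hf3 i j hij]
  · rw [e]
    refine ⟨D_diagonal T.b _, fun i j => ?_, ?_⟩
    · by_cases hij : i = j
      · subst hij
        rw [Matrix.diagonal_apply_eq, hn]
        exact (hr2 i).trans (le_max_left _ _)
      · rw [Matrix.diagonal_apply_ne _ hij, norm_zero]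
        exact zero_le_one.trans (le_max_right _ _)
    · rw [Matrix.det_diagonal, norm_prod]
      calc (1:ℝ) = ∏ _i : Fin N, (1:ℝ) := by rw [Finset.prod_const_one]
        _ ≤ _ := Finset.prod_le_prod (fun i _ => zero_le_one) fun i _ => by
            rw [hn]
            exact hr1 i

theorem X_mem (γ : G) : S.X γ ∈ GLb T.b := by
  refine ⟨D_diagonal T.b _, ?_⟩
  unfold Sv.X
  rw [Matrix.det_diagonal]
  exact Finset.prod_ne_zero_iff.2 fun i _ => inv_ne_zero (S.ofReal_ne γ i)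

end Str

end Pool.Agent.Helper90.RK
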