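import Pool.Agent.Helper90.RK.Fibre

/-!
# Project RK, block Ql: measurable QL decomposition

PROOF. For `det A ≠ 0` let `ql A` be the unitary matrix obtained from the columns of `A` by the Gram-Schmidt process in the order `N-1, ..., 1, 0` (last column first): column `j` of `ql A` is the
normalisation of the component of column `j` of `A` orthogonal to the columns `j + 1, ..., N - 1`. (Mathlib: `InnerProductSpace.gramSchmidt`, `gramSchmidtNormed` on `EuclideanSpace ℂ (Fin N)` with
the columns reversed by `Fin.rev`; or define it by hand by recursion.) So column `j` of `A` is in the span of the columns `≥ j` of `ql A`: `((ql A)ᴴ A) i j = 0` for `i < j`.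
Measurability of the entries: induction (inner products, division by norms). `ql_D`: if `A = D b A` and `b` is monotone, then all is done in the blocks: directly, or: `L = (ql A)ᴴ A` is invertible and lower
triangular, so is `L⁻¹`, hence `ql A = A L⁻¹` has `(ql A) i j = 0` for `b i < b j`, and it is unitary: `unitary_tri`. `ql_rel`: if `A = D b A`, `z` block scalars (`diagonal z` commutes with block diagonal
matrices) and `M ∈ GLb b`: `(ql (M A))ᴴ M (ql A) = L' L⁻¹` is lower triangular where `M A = ql (M A) L'`, `A = ql A L`.
For `det A = 0` put `ql A = 1`.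
-/

set_option autoImplicit false

open Filter Topology Matrix MeasureTheory

namespace Pool.Agent.Helper90.RK

open Pool.Agent.Helper84.NI

variable {N : ℕ}

/-- the columns in the reverse order -/
private noncomputable def qf (A : MN N) (k : Fin N) : EuclideanSpace ℂ (Fin N) :=
  WithLp.toLp 2 (fun i => A i (Fin.rev k))

private theorem qf_apply (A : MN N) (k i : Fin N) : qf A k i = A i (Fin.rev k) := rfl

private theorem q_inner (x y : EuclideanSpace ℂ (Fin N)) :
    inner ℂ x y = ∑ k, star (x k) * y k := by
  rw [PiLp.inner_apply]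
  refine Finset.sum_congr rfl fun k _ => ?_
  simp [mul_comm]

private theorem q_indep {A : MN N} (hA : A.det ≠ 0) : LinearIndependent ℂ (qf A) := by
  have h1 : LinearIndependent ℂ A.col := by
    rw [Matrix.linearIndependent_cols_iff_isUnit, Matrix.isUnit_iff_isUnit_det]
    exact isUnit_iff_ne_zero.mpr hA
  have h2 := h1.comp Fin.rev Fin.rev_injective
  have h3 := h2.map' (WithLp.linearEquiv 2 ℂ (Fin N → ℂ)).symm.toLinearMap
    (LinearEquiv.ker _)
  exact h3

private theorem gs_meas (n : Fin N) : ∀ i, Measurable fun y : YY N =>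
    (InnerProductSpace.gramSchmidt ℂ (qf (colM y)) n : EuclideanSpace ℂ (Fin N)) i := by
  induction n using WellFoundedLT.induction with
  | ind n ih =>
    intro i
    have h : (fun y : YY N =>
        (InnerProductSpace.gramSchmidt ℂ (qf (colM y)) n : EuclideanSpace ℂ (Fin N)) i) =
        fun y : YY N => colM y i (Fin.rev n) - ∑ k ∈ Finset.Iio n,
          (∑ l, star ((InnerProductSpace.gramSchmidt ℂ (qf (colM y)) k : EuclideanSpace ℂ (Fin N)) l)
            * colM y l (Fin.rev n)) /
          ((Real.sqrt (∑ l, ‖(InnerProductSpace.gramSchmidt ℂ (qf (colM y)) k :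
            EuclideanSpace ℂ (Fin N)) l‖ ^ 2) : ℝ) : ℂ) ^ 2 *
          (InnerProductSpace.gramSchmidt ℂ (qf (colM y)) k : EuclideanSpace ℂ (Fin N)) i := by
      funext y
      have h1 := congrArg (fun v : EuclideanSpace ℂ (Fin N) => v i)
        (InnerProductSpace.gramSchmidt_def'' ℂ (qf (colM y)) n)
      simp only [PiLp.add_apply] at h1
      rw [qf_apply] at h1
      rw [h1]
      have h2 : (∑ k ∈ Finset.Iio n,
          ((inner ℂ (InnerProductSpace.gramSchmidt ℂ (qf (colM y)) k) (qf (colM y) n) : ℂ) /
            (‖InnerProductSpace.gramSchmidt ℂ (qf (colM y)) k‖ : ℂ) ^ 2) •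
            InnerProductSpace.gramSchmidt ℂ (qf (colM y)) k : EuclideanSpace ℂ (Fin N)) i =
          ∑ k ∈ Finset.Iio n,
          (∑ l, star ((InnerProductSpace.gramSchmidt ℂ (qf (colM y)) k : EuclideanSpace ℂ (Fin N)) l)
            * colM y l (Fin.rev n)) /
          ((Real.sqrt (∑ l, ‖(InnerProductSpace.gramSchmidt ℂ (qf (colM y)) k :
            EuclideanSpace ℂ (Fin N)) l‖ ^ 2) : ℝ) : ℂ) ^ 2 *
          (InnerProductSpace.gramSchmidt ℂ (qf (colM y)) k : EuclideanSpace ℂ (Fin N)) i := by
        rw [WithLp.ofLp_sum, Finset.sum_apply]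
        refine Finset.sum_congr rfl fun k _ => ?_
        rw [PiLp.smul_apply, smul_eq_mul, q_inner, EuclideanSpace.norm_eq]
        rfl
      rw [← h2]
      exact (add_sub_cancel_right _ _).symm
    rw [h]
    have hc : ∀ i j, Measurable fun y : YY N => colM y i j := by
      intro i j
      exact (measurable_pi_apply i).comp (measurable_pi_apply j)
    refine (hc i _).sub (Finset.measurable_sum _ fun k hk => ?_)
    have ihk := ih k (Finset.mem_Iio.mp hk)
    refine Measurable.mul (Measurable.div ?_ ?_) (ihk i)
    · refine Finset.measurable_sum _ fun l _ => ?_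
      exact (Complex.continuous_conj.measurable.comp (ihk l)).mul (hc l _)
    · refine (Complex.measurable_ofReal.comp ?_).pow_const 2
      refine Real.continuous_sqrt.measurable.comp (Finset.measurable_sum _ fun l _ => ?_)
      exact (ihk l).norm.pow_const 2

theorem exists_ql (N : ℕ) : ∃ q : MN N → MN N, (∀ A, IsU (q A)) ∧
    (∀ A : MN N, A.det ≠ 0 → ∀ i j, i < j → ((q A)ᴴ * A) i j = 0) ∧
    (∀ A : MN N, A.det = 0 → q A = 1) ∧
    (∀ i j, Measurable fun y : YY N => q (colM y) i j) := by
  classical
  refine ⟨fun A => if A.det = 0 then 1 else Matrix.of fun i j =>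
    (InnerProductSpace.gramSchmidtNormed ℂ (qf A) (Fin.rev j) : EuclideanSpace ℂ (Fin N)) i,
    ?_, ?_, ?_, ?_⟩
  · intro A
    by_cases hA : A.det = 0
    · simp only [hA, if_true]
      unfold IsU
      simp
    · simp only [hA, if_false]
      unfold IsU
      have ho := InnerProductSpace.gramSchmidtNormed_orthonormal (𝕜 := ℂ) (q_indep hA)
      rw [orthonormal_iff_ite] at ho
      ext i j
      rw [Matrix.mul_apply]
      have h1 := ho (Fin.rev i) (Fin.rev j)
      rw [q_inner] at h1
      simp only [Matrix.conjTranspose_apply, Matrix.of_apply]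
      rw [h1, Matrix.one_apply]
      simp [Fin.rev_inj]
  · intro A hA i j hij
    simp only [hA, if_false]
    rw [Matrix.mul_apply]
    simp only [Matrix.conjTranspose_apply, Matrix.of_apply]
    have h1 := InnerProductSpace.gramSchmidt_inv_triangular ℂ (qf A) (Fin.rev_lt_rev.mpr hij)
    have h2 : inner ℂ (InnerProductSpace.gramSchmidtNormed ℂ (qf A) (Fin.rev i))
        (qf A (Fin.rev j)) = 0 := by
      unfold InnerProductSpace.gramSchmidtNormed
      rw [inner_smul_left, h1, mul_zero]
    rw [q_inner] at h2
    simp only [qf_apply, Fin.rev_rev] at h2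
    exact h2
  · intro A hA
    simp [hA]
  · intro i j
    have hc : ∀ i j, Measurable fun y : YY N => colM y i j := by
      intro i j
      exact (measurable_pi_apply i).comp (measurable_pi_apply j)
    have hdet : Measurable fun y : YY N => (colM y).det := by
      simp only [Matrix.det_apply]
      refine Finset.measurable_sum _ fun σ _ => ?_
      refine Measurable.const_smul (Finset.measurable_prod _ fun k _ => hc _ _) _
    have hset : MeasurableSet {y : YY N | (colM y).det = 0} :=
      hdet (measurableSet_singleton (0 : ℂ))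
    have h1 : (fun y : YY N => (if (colM y).det = 0 then (1 : MN N) else Matrix.of fun i j =>
        (InnerProductSpace.gramSchmidtNormed ℂ (qf (colM y)) (Fin.rev j) :
          EuclideanSpace ℂ (Fin N)) i) i j) =
        fun y : YY N => if (colM y).det = 0 then (1 : MN N) i j else
          (((Real.sqrt (∑ l, ‖(InnerProductSpace.gramSchmidt ℂ (qf (colM y)) (Fin.rev j) :
            EuclideanSpace ℂ (Fin N)) l‖ ^ 2) : ℝ) : ℂ))⁻¹ *
          (InnerProductSpace.gramSchmidt ℂ (qf (colM y)) (Fin.rev j) :
            EuclideanSpace ℂ (Fin N)) i := by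
      funext y
      split_ifs
      · rfl
      · rw [Matrix.of_apply]
        unfold InnerProductSpace.gramSchmidtNormed
        rw [PiLp.smul_apply, smul_eq_mul, EuclideanSpace.norm_eq]
        rfl
    rw [h1]
    refine Measurable.ite hset measurable_const (Measurable.mul (Measurable.inv ?_) (gs_meas _ _))
    refine Complex.measurable_ofReal.comp ?_
    refine Real.continuous_sqrt.measurable.comp (Finset.measurable_sum _ fun l _ => ?_)
    exact (gs_meas _ l).norm.pow_const 2

/-- the unitary factor of the QL decomposition -/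
noncomputable def ql (A : MN N) : MN N := (exists_ql N).choose A

theorem ql_unitary (A : MN N) : IsU (ql A) := (exists_ql N).choose_spec.1 A

theorem ql_low {A : MN N} (hA : A.det ≠ 0) {i j : Fin N} (h : i < j) : ((ql A)ᴴ * A) i j = 0 :=
  (exists_ql N).choose_spec.2.1 A hA i j h

theorem ql_sing {A : MN N} (hA : A.det = 0) : ql A = 1 := (exists_ql N).choose_spec.2.2.1 A hA

/-- measurability of the entries for the block diagonal part -/
theorem ql_meas (b : Fin N → ℕ) (i j : Fin N) : Measurable fun y : YY N => ql (D b (colM y)) i j := by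
  have h1 : ∀ y : YY N, D b (colM y) = colM (fun j i => if b i = b j then y j i else 0) := by
    intro y
    ext i j
    rfl
  have h2 : Measurable fun y : YY N => (fun j i => if b i = b j then y j i else 0 : YY N) := by
    refine measurable_pi_lambda _ fun j => measurable_pi_lambda _ fun i => ?_
    by_cases h : b i = b j
    · simp only [h, if_true]
      exact (measurable_pi_apply i).comp (measurable_pi_apply j)
    · simp only [h, if_false]
      exact measurable_const
  have h3 := ((exists_ql N).choose_spec.2.2.2 i j).comp h2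
  have h4 : (fun y : YY N => ql (D b (colM y)) i j) =
      (fun y : YY N => (exists_ql N).choose (colM y) i j) ∘
        fun y : YY N => (fun j i => if b i = b j then y j i else 0 : YY N) := by
    funext y
    rw [h1]
    rfl
  rw [h4]
  exact h3

/-- the lower triangular factor and its inverse -/
private theorem ql_factor {A : MN N} (hA : A.det ≠ 0) : ∃ L' : MN N,
    (∀ i j, i < j → L' i j = 0) ∧ ql A = A * L' := by
  have hU := ql_unitary A
  unfold IsU at hU
  have hU' : ql A * (ql A)ᴴ = 1 := mul_eq_one_comm.mp hU
  set L := (ql A)ᴴ * A with hL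
  have hdet : L.det ≠ 0 := by
    rw [hL, Matrix.det_mul]
    refine mul_ne_zero ?_ hA
    intro h0
    have h1 := congrArg Matrix.det hU
    rw [Matrix.det_mul, h0, zero_mul, Matrix.det_one] at h1
    exact zero_ne_one h1
  have hinv : Invertible L := Matrix.invertibleOfIsUnitDet L (isUnit_iff_ne_zero.mpr hdet)
  have htri : L.BlockTriangular (OrderDual.toDual : Fin N → (Fin N)ᵒᵈ) := by
    intro i j hij
    exact ql_low hA (OrderDual.toDual_lt_toDual.mp hij)
  have htri' := Matrix.blockTriangular_inv_of_blockTriangular htri
  refine ⟨L⁻¹, fun i j hij => htri' (OrderDual.toDual_lt_toDual.mpr hij), ?_⟩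
  have h1 : A = ql A * L := by
    rw [hL, ← Matrix.mul_assoc, hU', Matrix.one_mul]
  have h2 : L * L⁻¹ = 1 := Matrix.mul_inv_of_invertible L
  conv_rhs => rw [h1, Matrix.mul_assoc, h2, Matrix.mul_one]

theorem ql_D {b : Fin N → ℕ} (hb : Monotone b) {A : MN N} (hA : D b A = A) : D b (ql A) = ql A := by
  by_cases hd : A.det = 0
  · rw [ql_sing hd, D_one]
  · obtain ⟨L', hL', hq⟩ := ql_factor hd
    apply unitary_tri b (ql_unitary A)
    intro i j hij
    rw [hq, Matrix.mul_apply]
    refine Finset.sum_eq_zero fun k _ => ?_
    by_cases hk : b i = b k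
    · rw [hL' k j, mul_zero]
      by_contra hcon
      have h1 := hb (not_lt.mp hcon)
      omega
    · have h1 : A i k = 0 := by
        rw [← hA, D_apply, if_neg hk]
      rw [h1, zero_mul]

/-- comparison of the flags of `A` and `M A` -/
theorem ql_rel {A M : MN N} (hA : A.det ≠ 0) (hM : M.det ≠ 0) {i j : Fin N} (h : i < j) :
    ((ql (M * A))ᴴ * M * ql A) i j = 0 := by
  obtain ⟨L', hL', hq⟩ := ql_factor hA
  have hMA : (M * A).det ≠ 0 := by
    rw [Matrix.det_mul]
    exact mul_ne_zero hM hA
  have h1 : (ql (M * A))ᴴ * M * ql A = ((ql (M * A))ᴴ * (M * A)) * L' := by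
    conv_lhs => rw [hq]
    simp only [Matrix.mul_assoc]
  rw [h1, Matrix.mul_apply]
  refine Finset.sum_eq_zero fun k _ => ?_
  rcases lt_or_ge i k with hk | hk
  · rw [ql_low hMA hk, zero_mul]
  · rw [hL' k j (lt_of_le_of_lt hk h), mul_zero]

end Pool.Agent.Helper90.RK
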