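import Pool.Agent.Helper90.RK.FRep

/-!
# Project RK, block FBall: the normalised indicator function of the unit ball
-/

set_option autoImplicit false

open Matrix MeasureTheory
open scoped ENNReal

namespace Pool.Agent.Helper90.RK

open Pool.Agent.Helper84.NI

variable {N : ℕ} (b : Fin N → ℕ)

instance instOpenPos1 : (volume : Measure (Fin N → ℂ)).IsOpenPosMeasure := inferInstance

instance instOpenPos2 : (volume : Measure (YY N)).IsOpenPosMeasure :=
  MeasureTheory.Measure.pi.isOpenPosMeasure _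

/-- the square of the norm -/
noncomputable def nq (y : YY N) : ℝ := ∑ j, ∑ i, ‖y j i‖ ^ 2

theorem nq_cont : Continuous (nq (N := N)) := by
  unfold nq
  fun_prop

/-- the unit ball -/
def BB (N : ℕ) : Set (YY N) := {y | nq y ≤ 1}

theorem BB_closed : IsClosed (BB N) := isClosed_le nq_cont continuous_const

theorem BB_meas : MeasurableSet (BB N) := BB_closed.measurableSet

theorem BB_fin : (volume : Measure (YY N)) (BB N) ≠ ∞ := by
  have h : BB N ⊆ Metric.closedBall 0 1 := by
    intro y hy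
    have hy' : nq y ≤ 1 := hy
    rw [mem_closedBall_zero_iff, pi_norm_le_iff_of_nonneg zero_le_one]
    intro j
    rw [pi_norm_le_iff_of_nonneg zero_le_one]
    intro i
    have h1 : ‖y j i‖ ^ 2 ≤ nq y := by
      unfold nq
      calc ‖y j i‖ ^ 2 ≤ ∑ i, ‖y j i‖ ^ 2 :=
            Finset.single_le_sum (f := fun i => ‖y j i‖ ^ 2) (fun _ _ => by positivity) (Finset.mem_univ i)
        _ ≤ _ := Finset.single_le_sum (f := fun j => ∑ i, ‖y j i‖ ^ 2)
            (fun _ _ => Finset.sum_nonneg fun _ _ => by positivity) (Finset.mem_univ j)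
    nlinarith [norm_nonneg (y j i)]
  exact ((measure_mono h).trans_lt measure_closedBall_lt_top).ne

theorem BB_nhds : BB N ∈ nhds (0 : YY N) := by
  have h : {y : YY N | nq y < 1} ⊆ BB N := fun y hy => le_of_lt (show nq y < 1 from hy)
  refine Filter.mem_of_superset (IsOpen.mem_nhds (isOpen_lt nq_cont continuous_const) ?_) h
  show nq (0 : YY N) < 1
  simp [nq]

/-- the indicator function -/
noncomputable def II (N : ℕ) : LL N := indicatorConstLp 2 BB_meas BB_fin (1 : ℂ)

theorem II_comp {T : YY N → YY N} (hT : MeasurePreserving T (volume : Measure (YY N)) (volume : Measure (YY N)))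
    {g : LL N} (hg : (g : YY N → ℂ) =ᵐ[volume] fun x => II N (T x)) :
    g = indicatorConstLp 2 (BB_meas.preimage hT.measurable)
      (by rw [hT.measure_preimage BB_meas.nullMeasurableSet]; exact BB_fin) (1 : ℂ) := by
  rw [← Lp.indicatorConstLp_compMeasurePreserving BB_meas BB_fin (1 : ℂ) hT]
  refine Lp.ext (hg.trans ?_)
  exact (Lp.coeFn_compMeasurePreserving _ hT).symm

theorem II_fix {T : YY N → YY N} (hT : MeasurePreserving T (volume : Measure (YY N)) (volume : Measure (YY N)))
    (hB : T ⁻¹' BB N = BB N) {g : LL N} (hg : (g : YY N → ℂ) =ᵐ[volume] fun x => II N (T x)) : g = II N := by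
  rw [II_comp hT hg]
  unfold II
  congr 1

theorem II_norm : 0 < ‖II N‖ := by
  unfold II
  rw [norm_indicatorConstLp (by norm_num) (by norm_num)]
  have h : 0 < (volume : Measure (YY N)).real (BB N) := by
    rw [measureReal_def]
    refine ENNReal.toReal_pos (Measure.measure_pos_of_mem_nhds _ BB_nhds).ne' BB_fin
  simp only [norm_one, one_mul]
  positivity

theorem sum_mulVec_unitary {k : MN N} (hk : IsU k) (x : Fin N → ℂ) :
    ∑ i, ‖(kᴴ *ᵥ x) i‖ ^ 2 = ∑ i, ‖x i‖ ^ 2 := by
  have hk' : k * kᴴ = 1 := mul_eq_one_comm.1 hk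
  have h3 : star (kᴴ *ᵥ x) ⬝ᵥ (kᴴ *ᵥ x) = star x ⬝ᵥ x := by
    rw [Matrix.star_mulVec, Matrix.conjTranspose_conjTranspose, ← Matrix.dotProduct_mulVec,
      Matrix.mulVec_mulVec, hk', Matrix.one_mulVec]
  have h4 : ∀ y : Fin N → ℂ, star y ⬝ᵥ y = ((∑ i, ‖y i‖ ^ 2 : ℝ) : ℂ) := by
    intro y
    rw [dotProduct]
    push_cast
    refine Finset.sum_congr rfl fun i _ => ?_
    simp only [Pi.star_apply, RCLike.star_def, Complex.conj_mul']
  rw [h4, h4] at h3
  exact_mod_cast h3

theorem exists_ball : ∃ v : LL N, ‖v‖ = 1 ∧ (∀ (z : Fin N → ℂ) (hz : IsBu b z), rot b z hz v = v) ∧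
    (∀ k : MN N, k ∈ GLb b → IsU k → sig b k v = v) ∧
    ∀ C : MN N, C ∈ GLb b → 0 < (inner ℂ v (sig b C v)).re := by
  refine ⟨((‖II N‖⁻¹ : ℝ) : ℂ) • II N, ?_, ?_, ?_, ?_⟩
  · rw [norm_smul, Complex.norm_real, norm_inv, norm_norm, inv_mul_cancel₀ II_norm.ne']
  · intro z hz
    rw [map_smul]
    congr 1
    refine II_fix (rot_mp b hz.1 hz.2) ?_ (rot_ae b z hz (II N))
    ext y
    change nq (fun j => z * y j) ≤ 1 ↔ nq y ≤ 1
    have : nq (fun j => z * y j) = nq y := by
      unfold nq
      refine Finset.sum_congr rfl fun j _ => Finset.sum_congr rfl fun i _ => ?_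
      change ‖z i * y j i‖ ^ 2 = ‖y j i‖ ^ 2
      rw [norm_mul, hz.2 i, one_mul]
    rw [this]
  · intro k hk hu
    rw [map_smul]
    congr 1
    refine II_fix (TC_mp b hk) ?_ (sig_ae b hk (II N))
    ext y
    change nq (TC b k y) ≤ 1 ↔ nq y ≤ 1
    have hinv : k⁻¹ = kᴴ := Matrix.inv_eq_left_inv hu
    have hk' : IsU k⁻¹ := by
      rw [hinv]
      exact hu.star
    have : nq (TC b k y) = nq y := by
      unfold nq TC
      refine Finset.sum_congr rfl fun j _ => ?_
      rw [nrm_unitary b (GLb_inv b hk) hk', hinv]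
      exact sum_mulVec_unitary hu (y j)
    rw [this]
  · intro C hC
    rw [map_smul, inner_smul_left, inner_smul_right, II_comp (TC_mp b hC) (sig_ae b hC (II N))]
    unfold II
    rw [L2.inner_indicatorConstLp_one_indicatorConstLp_one (𝕜 := ℂ) BB_meas
      (BB_meas.preimage (TC_mp b hC).measurable) BB_fin
      (by rw [(TC_mp b hC).measure_preimage BB_meas.nullMeasurableSet]; exact BB_fin)]
    have h0 : TC b C 0 = 0 := by
      funext j
      simp [TC]
    have hn : BB N ∩ TC b C ⁻¹' BB N ∈ nhds (0 : YY N) := by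
      refine Filter.inter_mem BB_nhds ((TC_cont b C).continuousAt.preimage_mem_nhds ?_)
      rw [h0]
      exact BB_nhds
    have h : 0 < (volume : Measure (YY N)).real (BB N ∩ TC b C ⁻¹' BB N) := by
      rw [measureReal_def]
      refine ENNReal.toReal_pos (Measure.measure_pos_of_mem_nhds _ hn).ne' ?_
      exact ((measure_mono Set.inter_subset_left).trans_lt (lt_top_iff_ne_top.2 BB_fin)).ne
    have hI := II_norm (N := N)
    unfold II at hI
    rw [Complex.conj_ofReal]
    rw [← mul_assoc, ← Complex.ofReal_mul, Complex.re_ofReal_mul]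
    refine mul_pos (mul_pos (inv_pos.2 hI) (inv_pos.2 hI)) ?_
    exact h

end Pool.Agent.Helper90.RK
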