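import Pool.Agent.Helper90.RK.Mp

/-!
# Project RK, block FRep: the unitary representation on `L²((ℂ^N)^N)`
-/

set_option autoImplicit false

open Matrix MeasureTheory
open scoped ENNReal

namespace Pool.Agent.Helper90.RK

open Pool.Agent.Helper84.NI

variable {N : ℕ} (b : Fin N → ℕ)

/-- `L²((ℂ^N)^N)` -/
abbrev LL (N : ℕ) : Type := Lp ℂ 2 (volume : Measure (YY N))

/-- The composition operator with `TC b C`. -/
noncomputable def cmp (C : MN N) (hC : C ∈ GLb b) : LL N →ₗᵢ[ℂ] LL N :=
  Lp.compMeasurePreservingₗᵢ ℂ (TC b C) (TC_mp b hC)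

theorem cmp_ae (C : MN N) (hC : C ∈ GLb b) (f : LL N) :
    (cmp b C hC f : YY N → ℂ) =ᵐ[volume] fun x => f (TC b C x) :=
  Lp.coeFn_compMeasurePreserving f (TC_mp b hC)

theorem ae_comp {f g : YY N → ℂ} (h : f =ᵐ[volume] g) {T : YY N → YY N}
    (hT : MeasurePreserving T (volume : Measure (YY N)) (volume : Measure (YY N))) :
    (fun x => f (T x)) =ᵐ[volume] fun x => g (T x) :=
  hT.quasiMeasurePreserving.ae_eq_comp h

theorem cmp_cmp (C E : MN N) (hC : C ∈ GLb b) (hE : E ∈ GLb b) (f : LL N) :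
    (cmp b C hC (cmp b E hE f) : YY N → ℂ) =ᵐ[volume] fun x => f (TC b (C * E) x) := by
  refine (cmp_ae b C hC _).trans ((ae_comp (cmp_ae b E hE f) (TC_mp b hC)).trans ?_)
  refine Filter.Eventually.of_forall fun x => ?_
  simp only
  rw [TC_mul b hC hE]

/-- The unitary representation of invertible block diagonal matrices. -/
theorem exists_sig : ∃ sig : MN N → (LL N ≃ₗᵢ[ℂ] LL N),
    ∀ C : MN N, C ∈ GLb b → ∀ f : LL N, (sig C f : YY N → ℂ) =ᵐ[volume] fun x => f (TC b C x) := by
  classical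
  have key : ∀ (C E : MN N) (hC : C ∈ GLb b) (hE : E ∈ GLb b) (_ : C * E = 1) (f : LL N),
      cmp b C hC (cmp b E hE f) = f := by
    intro C E hC hE h f
    refine Lp.ext ((cmp_cmp b C E hC hE f).trans ?_)
    refine Filter.Eventually.of_forall fun x => ?_
    simp only
    rw [h, TC_one]
  refine ⟨fun C => if hC : C ∈ GLb b then
    { (cmp b C hC).toLinearMap with
      invFun := cmp b C⁻¹ (GLb_inv b hC)
      left_inv := fun f => key _ _ _ _ (Matrix.nonsing_inv_mul _ (isUnit_iff_ne_zero.2 hC.2)) f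
      right_inv := fun f => key _ _ _ _ (Matrix.mul_nonsing_inv _ (isUnit_iff_ne_zero.2 hC.2)) f
      norm_map' := (cmp b C hC).norm_map } else 1, fun C hC f => ?_⟩
  simp only
  rw [dif_pos hC]
  exact cmp_ae b C hC f

/-- The unitary representation. -/
noncomputable def sig : MN N → (LL N ≃ₗᵢ[ℂ] LL N) := (exists_sig b).choose

theorem sig_ae {C : MN N} (hC : C ∈ GLb b) (f : LL N) :
    (sig b C f : YY N → ℂ) =ᵐ[volume] fun x => f (TC b C x) := (exists_sig b).choose_spec C hC f

theorem sig_one (f : LL N) : sig b 1 f = f := by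
  refine Lp.ext ((sig_ae b (GLb_one b) f).trans ?_)
  refine Filter.Eventually.of_forall fun x => ?_
  simp only
  rw [TC_one]

theorem sig_mul {C E : MN N} (hC : C ∈ GLb b) (hE : E ∈ GLb b) (f : LL N) :
    sig b (C * E) f = sig b C (sig b E f) := by
  refine Lp.ext ((sig_ae b (GLb_mul b hC hE) f).trans ?_)
  refine ((sig_ae b hC _).trans ((ae_comp (sig_ae b hE f) (TC_mp b hC)).trans ?_)).symm
  refine Filter.Eventually.of_forall fun x => ?_
  simp only
  rw [TC_mul b hC hE]

/-- unimodular block scalars -/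
def IsBu (z : Fin N → ℂ) : Prop := IsBs b z ∧ ∀ i, ‖z i‖ = 1

/-- the operator `f ↦ f (z y)` for unimodular block scalars -/
noncomputable def rot (z : Fin N → ℂ) (hz : IsBu b z) : LL N →ₗᵢ[ℂ] LL N :=
  Lp.compMeasurePreservingₗᵢ ℂ (fun y : YY N => (fun j => z * y j : YY N)) (rot_mp b hz.1 hz.2)

theorem rot_ae (z : Fin N → ℂ) (hz : IsBu b z) (f : LL N) :
    (rot b z hz f : YY N → ℂ) =ᵐ[volume] fun y => f fun j => z * y j :=
  Lp.coeFn_compMeasurePreserving f (rot_mp b hz.1 hz.2)

theorem rot_sig (z : Fin N → ℂ) (hz : IsBu b z) {C : MN N} (hC : C ∈ GLb b) (f : LL N) :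
    rot b z hz (sig b C f) = sig b C (rot b z hz f) := by
  refine Lp.ext ((rot_ae b z hz _).trans ((ae_comp (sig_ae b hC f) (rot_mp b hz.1 hz.2)).trans ?_))
  refine ((sig_ae b hC _).trans ((ae_comp (rot_ae b z hz f) (TC_mp b hC)).trans ?_)).symm
  refine Filter.Eventually.of_forall fun x => ?_
  simp only
  rw [TC_comm b hz.1 hC]

/-- block scalar matrices act through rotations -/
theorem sig_scal {z : Fin N → ℂ} (hz : IsBs b z) {C : MN N} (hC : C ∈ GLb b) (f : LL N)
    (hf : ∀ (z : Fin N → ℂ) (hz : IsBu b z), rot b z hz f = f) : sig b (diagonal z * C) f = sig b C f := by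
  have hcC : diagonal z * C ∈ GLb b := GLb_mul b (bs_mem b hz) hC
  have hu : IsBu b fun i => (‖z i‖ : ℂ) / z i := by
    refine ⟨⟨fun i => div_ne_zero (by exact_mod_cast (norm_ne_zero_iff.2 (hz.1 i))) (hz.1 i),
      fun i j h => ?_⟩, fun i => ?_⟩
    · simp only
      rw [hz.2 i j h]
    · rw [norm_div, Complex.norm_real, norm_norm, div_self (norm_ne_zero_iff.2 (hz.1 i))]
  refine Lp.ext ((sig_ae b hcC f).trans ?_)
  have h1 := rot_ae b _ hu f
  rw [hf _ hu] at h1
  refine Filter.EventuallyEq.trans ?_ (sig_ae b hC f).symm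
  refine Filter.EventuallyEq.trans ?_ (ae_comp h1 (TC_mp b hC)).symm
  refine Filter.Eventually.of_forall fun x => ?_
  simp only
  rw [TC_scal b hz hC]

theorem sig_cont (f : LL N) : ContinuousOn (fun C : MN N => sig b C f) (GLb b) := by
  rw [continuousOn_iff_continuous_domRestrict]
  have hcur : Continuous fun C : {C : MN N // C ∈ GLb b} => (⟨TC b C.1, TC_cont b C.1⟩ : C(YY N, YY N)) := by
    let F : C({C : MN N // C ∈ GLb b} × YY N, YY N) := ⟨fun p => TC b p.1.1 p.2, TC_cont2 b⟩
    exact F.curry.continuous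
  have h := Continuous.compMeasurePreservingLp (p := 2) (μ := (volume : Measure (YY N)))
    (ν := (volume : Measure (YY N))) (E := ℂ)
    (continuous_const (y := f) (X := {C : MN N // C ∈ GLb b})) hcur
    (fun C => TC_mp b C.2) (by norm_num)
  refine h.congr fun C => ?_
  refine Lp.ext ((Lp.coeFn_compMeasurePreserving f (TC_mp b C.2)).trans ?_)
  exact (sig_ae b C.2 f).symm

end Pool.Agent.Helper90.RK
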