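import Pool.Agent.Helper90.RK.Geo
import Pool.Agent.Helper84.NI.GB

/-!
# Project RK, block GB: exact identities (dimension `N`)

As `Pool/Agent/Helper84/NI/GB.lean` (`ns_mul_le`, `ns_unitary_mul`, `ns_mul_unitary`, `norm_apply_sq_le`, `IsU.*` are proved there for all dimensions).
-/

set_option autoImplicit false

open Filter Topology Matrix

namespace Pool.Agent.Helper90.RK

open Pool.Agent.Helper84.NI

variable {G : Type} [Group G] {N : ℕ} {P : PH G N}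

theorem unit_det {A : MN N} (h : ‖A.det‖ = 1) : IsUnit A.det := by
  rw [isUnit_iff_ne_zero]
  intro h0
  rw [h0, norm_zero] at h
  exact zero_ne_one h

theorem ne_zero_of_norm_one {c : ℂ} (hc : ‖c‖ = 1) : c ≠ 0 := by
  rintro rfl
  rw [norm_zero] at hc
  exact zero_ne_one hc

theorem iota_one (P : PH G N) : ∃ c : ℂ, ‖c‖ = 1 ∧ P.ι 1 = c • (1 : MN N) := by
  obtain ⟨c, hc, h⟩ := P.mul' 1 1
  have hc0 := ne_zero_of_norm_one hc
  have hu := unit_det (P.det1 1)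
  refine ⟨c⁻¹, by rw [norm_inv, hc, inv_one], ?_⟩
  rw [mul_one] at h
  have h1 : (P.ι 1)⁻¹ * P.ι 1 = (P.ι 1)⁻¹ * (c • (P.ι 1 * P.ι 1)) := by rw [← h]
  rw [Matrix.nonsing_inv_mul _ hu, Matrix.mul_smul, ← Matrix.mul_assoc, Matrix.nonsing_inv_mul _ hu,
    Matrix.one_mul] at h1
  rw [h1, smul_smul, inv_mul_cancel₀ hc0, one_smul]

theorem iota_inv (P : PH G N) (g : G) : ∃ c : ℂ, ‖c‖ = 1 ∧ P.ι g⁻¹ = c • (P.ι g)⁻¹ := by
  obtain ⟨c, hc, h⟩ := P.mul' g g⁻¹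
  obtain ⟨d, hd, h'⟩ := iota_one P
  have hc0 := ne_zero_of_norm_one hc
  have hu := unit_det (P.det1 g)
  refine ⟨c⁻¹ * d, by rw [norm_mul, norm_inv, hc, hd, inv_one, one_mul], ?_⟩
  rw [mul_inv_cancel, h'] at h
  have h1 : (P.ι g)⁻¹ * (d • (1 : MN N)) = (P.ι g)⁻¹ * (c • (P.ι g * P.ι g⁻¹)) := by rw [h]
  rw [Matrix.mul_smul, Matrix.mul_one, Matrix.mul_smul, ← Matrix.mul_assoc, Matrix.nonsing_inv_mul _ hu,
    Matrix.one_mul] at h1
  rw [mul_smul, h1, smul_smul, inv_mul_cancel₀ hc0, one_smul]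

theorem norm_apply_le' (A : MN N) (i j : Fin N) : ‖A i j‖ ≤ Real.sqrt (ns A) :=
  Real.le_sqrt_of_sq_le (norm_apply_sq_le A i j)

namespace Sv

variable (S : Sv P)

theorem ofReal_ne (γ : G) (i : Fin N) : (S.s γ i : ℂ) ≠ 0 := by
  exact_mod_cast (S.pos γ i).ne'

theorem prod_s (γ : G) : ∏ i, S.s γ i = 1 := by
  have h := P.det1 γ
  rw [S.spec γ, Matrix.det_mul, Matrix.det_mul, norm_mul, norm_mul, (S.uL γ).norm_det, (S.uR γ).star.norm_det,
    Matrix.det_diagonal, norm_prod, one_mul, mul_one] at h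
  rw [← h]
  exact Finset.prod_congr rfl fun i _ => by rw [Complex.norm_real, Real.norm_of_nonneg (S.pos γ i).le]

theorem m_eq (g h γ : G) : ∃ c : ℂ, ‖c‖ = 1 ∧ ∀ i j,
    S.m g h γ i j = c * (S.n g h γ i j * ((S.s (g⁻¹ * γ * h) j / S.s γ i : ℝ) : ℂ)) := by
  obtain ⟨a, ha, h1⟩ := P.mul' g (g⁻¹ * γ * h)
  obtain ⟨b, hb, h2⟩ := P.mul' γ h
  have hb0 := ne_zero_of_norm_one hb
  have e : g * (g⁻¹ * γ * h) = γ * h := by group
  rw [e, h2] at h1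
  set γ' := g⁻¹ * γ * h with hγ'
  have key : b • (diagonal (fun i => (S.s γ i : ℂ)) * S.m g h γ) =
      a • (S.n g h γ * diagonal (fun i => (S.s γ' i : ℂ))) := by
    have h3 : (S.kL γ)ᴴ * (b • (P.ι γ * P.ι h)) * S.kR γ' = (S.kL γ)ᴴ * (a • (P.ι g * P.ι γ')) * S.kR γ' := by
      rw [h1]
    have h4 : (S.kL γ)ᴴ * (b • (P.ι γ * P.ι h)) * S.kR γ' =
        b • (diagonal (fun i => (S.s γ i : ℂ)) * S.m g h γ) := by
      rw [Matrix.mul_smul, Matrix.smul_mul, S.spec γ]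
      congr 1
      have hL : (S.kL γ)ᴴ * S.kL γ = 1 := S.uL γ
      calc (S.kL γ)ᴴ * (S.kL γ * diagonal (fun i => (S.s γ i : ℂ)) * (S.kR γ)ᴴ * P.ι h) * S.kR γ'
          = ((S.kL γ)ᴴ * S.kL γ) * diagonal (fun i => (S.s γ i : ℂ)) * ((S.kR γ)ᴴ * P.ι h * S.kR γ') := by
            simp only [Matrix.mul_assoc]
        _ = diagonal (fun i => (S.s γ i : ℂ)) * S.m g h γ := by
            rw [hL, Matrix.one_mul]
            rfl
    have h5 : (S.kL γ)ᴴ * (a • (P.ι g * P.ι γ')) * S.kR γ' =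
        a • (S.n g h γ * diagonal (fun i => (S.s γ' i : ℂ))) := by
      rw [Matrix.mul_smul, Matrix.smul_mul, S.spec γ']
      congr 1
      have hR : (S.kR γ')ᴴ * S.kR γ' = 1 := S.uR γ'
      calc (S.kL γ)ᴴ * (P.ι g * (S.kL γ' * diagonal (fun i => (S.s γ' i : ℂ)) * (S.kR γ')ᴴ)) * S.kR γ'
          = ((S.kL γ)ᴴ * P.ι g * S.kL γ') * diagonal (fun i => (S.s γ' i : ℂ)) * ((S.kR γ')ᴴ * S.kR γ') := by
            simp only [Matrix.mul_assoc]
        _ = S.n g h γ * diagonal (fun i => (S.s γ' i : ℂ)) := by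
            rw [hR, Matrix.mul_one]
            rfl
    rw [← h4, h3, h5]
  refine ⟨b⁻¹ * a, by rw [norm_mul, norm_inv, ha, hb, inv_one, one_mul], fun i j => ?_⟩
  have h6 := congrFun (congrFun key i) j
  rw [Matrix.smul_apply, Matrix.smul_apply, Matrix.diagonal_mul, Matrix.mul_diagonal, smul_eq_mul,
    smul_eq_mul] at h6
  have hs' : (S.s γ i : ℂ) ≠ 0 := S.ofReal_ne γ i
  push_cast
  field_simp
  linear_combination h6

theorem m_mul (g h g' h' γ : G) : ∃ c : ℂ, ‖c‖ = 1 ∧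
    S.m (g * g') (h * h') γ = c • (S.m g h γ * S.m g' h' (g⁻¹ * γ * h)) := by
  obtain ⟨c, hc, h1⟩ := P.mul' h h'
  refine ⟨c, hc, ?_⟩
  have e : (g * g')⁻¹ * γ * (h * h') = g'⁻¹ * (g⁻¹ * γ * h) * h' := by group
  unfold m
  rw [e, h1, Matrix.mul_smul, Matrix.smul_mul]
  congr 1
  have hR : S.kR (g⁻¹ * γ * h) * (S.kR (g⁻¹ * γ * h))ᴴ = 1 := (S.uR _).mul_star
  calc (S.kR γ)ᴴ * (P.ι h * P.ι h') * S.kR (g'⁻¹ * (g⁻¹ * γ * h) * h')
      = (S.kR γ)ᴴ * P.ι h * 1 * (P.ι h' * S.kR (g'⁻¹ * (g⁻¹ * γ * h) * h')) := by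
        simp only [Matrix.mul_assoc, Matrix.one_mul]
    _ = _ := by
        rw [← hR]
        simp only [Matrix.mul_assoc]

theorem ns_m (g h γ : G) : ns (S.m g h γ) = ns (P.ι h) := by
  unfold m
  rw [ns_mul_unitary (S.uR _), ns_unitary_mul (S.uR _).star]

theorem ns_n (g h γ : G) : ns (S.n g h γ) = ns (P.ι g) := by
  unfold n
  rw [ns_mul_unitary (S.uL _), ns_unitary_mul (S.uL _).star]

theorem norm_m_le (g h γ : G) (i j : Fin N) : ‖S.m g h γ i j‖ ≤ Real.sqrt (ns (P.ι h)) := by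
  rw [← S.ns_m g h γ]
  exact norm_apply_le' _ i j

theorem norm_n_le (g h γ : G) (i j : Fin N) : ‖S.n g h γ i j‖ ≤ Real.sqrt (ns (P.ι g)) := by
  rw [← S.ns_n g h γ]
  exact norm_apply_le' _ i j

theorem norm_det_m (g h γ : G) : ‖(S.m g h γ).det‖ = 1 := by
  unfold m
  rw [Matrix.det_mul, Matrix.det_mul, norm_mul, norm_mul, (S.uR γ).star.norm_det, P.det1,
    (S.uR _).norm_det]
  norm_num

theorem m_unitary (g γ : G) : IsU (S.m g 1 γ) := by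
  obtain ⟨d, hd, h'⟩ := iota_one P
  unfold m
  rw [h', Matrix.mul_smul, Matrix.smul_mul, Matrix.mul_one]
  exact ((S.uR _).star.mul (S.uR _)).smul hd

theorem n_unitary (h γ : G) : IsU (S.n 1 h γ) := by
  obtain ⟨d, hd, h'⟩ := iota_one P
  unfold n
  rw [h', Matrix.mul_smul, Matrix.smul_mul, Matrix.mul_one]
  exact ((S.uL _).star.mul (S.uL _)).smul hd

theorem m_one (γ : G) : ∃ c : ℂ, ‖c‖ = 1 ∧ S.m 1 1 γ = c • (1 : MN N) := by
  obtain ⟨d, hd, h'⟩ := iota_one P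
  refine ⟨d, hd, ?_⟩
  have e : (1 : G)⁻¹ * γ * 1 = γ := by group
  have hR : (S.kR γ)ᴴ * S.kR γ = 1 := S.uR γ
  unfold m
  rw [e, h', Matrix.mul_smul, Matrix.smul_mul, Matrix.mul_one, hR]

end Sv

end Pool.Agent.Helper90.RK
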