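import Pool.Agent.Helper90.RK.GB

/-!
# Project RK, block GC: comparison of singular values

PROOFS. `det_small`: Leibniz formula (`Matrix.det_apply`); for every permutation `σ` there is `i ≥ p` with `σ i ≤ p` (pigeonhole: `{i ≥ p}` has `N - p` elements, `{j > p}` has `N - p - 1`), so (pay attention to
the convention `A (σ i) i` of `det_apply`) each of the `N!` products is at most `ε R^(N-1)` in modulus.
`s_compare`: write `γ'' = g⁻¹ γ h`, `m = m_{g,h}(γ)`, `n = n_{g,h}(γ)`; `m_ij = c n_ij s_j''/s_i`, `|c| = 1` (`Sv.m_eq`), `|m_ij| ≤ R`, `|n_ij| ≤ R` (`norm_m_le`, `norm_n_le`, take `R ≥ 1`),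
`|det m| = 1` (`norm_det_m`), `|det n| = |det ι g| = 1`. For `i ≥ p ≥ j`: `|n_ij| = |m_ij| s_i/s_j'' ≤ R s_p/s_p''` (`anti`), so by `det_small` `1 ≤ N! R^N s_p/s_p''`, i.e. `s_p'' ≤ N! R^N s_p`.
For `i ≤ p ≤ j`: `|m_ij| = |n_ij| s_j''/s_i ≤ R s_p''/s_p`; `det_small` for the transposed matrix gives `s_p ≤ N! R^N s_p''`.
`ns_iota`: unitary invariance. `finite_ratio`: `s_0^N ≤ R^N ∏ s_j = R^N` (`prod_s`; `N = 0`: then `ns = 0` and `P.fin 0`), so `s_i ≤ s_0 ≤ R` and `ns (ι γ) ≤ N R^2`, `P.fin`.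
-/

set_option autoImplicit false

open Filter Topology Matrix

namespace Pool.Agent.Helper90.RK

open Pool.Agent.Helper84.NI

variable {G : Type} [Group G] {N : ℕ} {P : PH G N}

private theorem perm_pigeon (σ : Equiv.Perm (Fin N)) (p : Fin N) : ∃ i, i ≤ p ∧ p ≤ σ i := by
  by_contra hcon
  push Not at hcon
  have h1 : (Finset.Iic p).card ≤ (Finset.Iio p).card := by
    refine Finset.card_le_card_of_injOn (fun i => σ i) ?_ (fun a _ b _ hab => σ.injective hab)
    intro i hi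
    have hi' : i ≤ p := by simpa using hi
    have := hcon i hi'
    simpa using this
  rw [Fin.card_Iic, Fin.card_Iio] at h1
  omega

theorem det_small (A : MN N) {R ε : ℝ} (hR : ∀ i j, ‖A i j‖ ≤ R) (p : Fin N)
    (h : ∀ i j, p ≤ i → j ≤ p → ‖A i j‖ ≤ ε) : ‖A.det‖ ≤ N.factorial * (ε * R ^ (N - 1)) := by
  rw [Matrix.det_apply]
  have h1 : ∀ σ : Equiv.Perm (Fin N), ‖Equiv.Perm.sign σ • ∏ i, A (σ i) i‖ ≤ ε * R ^ (N - 1) := by
    intro σ
    obtain ⟨i0, hi0, hp⟩ := perm_pigeon σ p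
    have e1 : ‖Equiv.Perm.sign σ • ∏ i, A (σ i) i‖ = ‖∏ i, A (σ i) i‖ := by
      rcases Int.units_eq_one_or (Equiv.Perm.sign σ) with h | h <;> rw [h] <;> simp
    rw [e1, norm_prod, ← Finset.mul_prod_erase Finset.univ _ (Finset.mem_univ i0)]
    refine mul_le_mul (h _ _ hp hi0) ?_ (Finset.prod_nonneg fun _ _ => norm_nonneg _)
      ((norm_nonneg _).trans (h _ _ hp hi0))
    calc ∏ i ∈ Finset.univ.erase i0, ‖A (σ i) i‖ ≤ ∏ _i ∈ Finset.univ.erase i0, R :=
          Finset.prod_le_prod (fun _ _ => norm_nonneg _) fun i _ => hR _ _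
      _ = R ^ (N - 1) := by
          rw [Finset.prod_const, Finset.card_erase_of_mem (Finset.mem_univ _), Finset.card_univ,
            Fintype.card_fin]
  calc ‖∑ σ : Equiv.Perm (Fin N), Equiv.Perm.sign σ • ∏ i, A (σ i) i‖
      ≤ ∑ σ : Equiv.Perm (Fin N), ‖Equiv.Perm.sign σ • ∏ i, A (σ i) i‖ := norm_sum_le _ _
    _ ≤ ∑ _σ : Equiv.Perm (Fin N), ε * R ^ (N - 1) := Finset.sum_le_sum fun σ _ => h1 σ
    _ = N.factorial * (ε * R ^ (N - 1)) := by
        rw [Finset.sum_const, Finset.card_univ, Fintype.card_perm, Fintype.card_fin, nsmul_eq_mul]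

namespace Sv

variable (S : Sv P)

private theorem norm_det_n (g h γ : G) : ‖(S.n g h γ).det‖ = 1 := by
  unfold n
  rw [Matrix.det_mul, Matrix.det_mul, norm_mul, norm_mul, (S.uL γ).star.norm_det, P.det1,
    (S.uL _).norm_det]
  norm_num

theorem s_compare (g h : G) : ∃ C : ℝ, 1 ≤ C ∧ ∀ γ i,
    S.s (g⁻¹ * γ * h) i ≤ C * S.s γ i ∧ S.s γ i ≤ C * S.s (g⁻¹ * γ * h) i := by
  set R : ℝ := max 1 (max (Real.sqrt (ns (P.ι g))) (Real.sqrt (ns (P.ι h)))) with hR
  have hR1 : 1 ≤ R := le_max_left _ _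
  have hRg : Real.sqrt (ns (P.ι g)) ≤ R := (le_max_left _ _).trans (le_max_right _ _)
  have hRh : Real.sqrt (ns (P.ι h)) ≤ R := (le_max_right _ _).trans (le_max_right _ _)
  have hR0 : 0 ≤ R := zero_le_one.trans hR1
  have hf : (1 : ℝ) ≤ N.factorial := by exact_mod_cast Nat.factorial_pos N
  refine ⟨N.factorial * R ^ N, ?_, fun γ p => ?_⟩
  · exact one_le_mul_of_one_le_of_one_le hf (one_le_pow₀ hR1)
  have hN : N ≠ 0 := by
    rintro rfl
    exact p.elim0
  have hRN : R * R ^ (N - 1) = R ^ N := by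
    rw [← pow_succ']
    congr 1
    omega
  obtain ⟨c, hc, hm⟩ := S.m_eq g h γ
  have hm' : ∀ i j, ‖S.m g h γ i j‖ = ‖S.n g h γ i j‖ * (S.s (g⁻¹ * γ * h) j / S.s γ i) := by
    intro i j
    rw [hm i j, norm_mul, norm_mul, hc, one_mul, Complex.norm_real,
      Real.norm_of_nonneg (div_pos (S.pos _ j) (S.pos _ i)).le]
  set γ' := g⁻¹ * γ * h with hγ'
  have hp := S.pos γ p
  have hp' := S.pos γ' p
  constructor
  · have h1 := det_small (S.n g h γ) (R := R) (ε := R * (S.s γ p / S.s γ' p))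
      (fun i j => (S.norm_n_le g h γ i j).trans hRg) p (by
        intro i j hi hj
        have a := S.pos γ i
        have b := S.pos γ' j
        have e := hm' i j
        have e2 : ‖S.n g h γ i j‖ = ‖S.m g h γ i j‖ * (S.s γ i / S.s γ' j) := by
          rw [e]
          field_simp
        rw [e2]
        refine mul_le_mul ((S.norm_m_le g h γ i j).trans hRh) ?_ (div_pos a b).le hR0
        exact div_le_div₀ hp.le (S.anti γ hi) hp' (S.anti γ' hj))
    rw [S.norm_det_n] at h1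
    have h2 : (N.factorial : ℝ) * (R * (S.s γ p / S.s γ' p) * R ^ (N - 1)) =
        N.factorial * R ^ N * S.s γ p / S.s γ' p := by
      rw [← hRN]
      ring
    rw [h2, le_div_iff₀ hp', one_mul] at h1
    exact h1
  · have h1 := det_small (S.m g h γ)ᵀ (R := R) (ε := R * (S.s γ' p / S.s γ p))
      (fun i j => (S.norm_m_le g h γ j i).trans hRh) p (by
        intro j i hj hi
        have a := S.pos γ i
        have b := S.pos γ' j
        rw [Matrix.transpose_apply, hm' i j]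
        refine mul_le_mul ((S.norm_n_le g h γ i j).trans hRg) ?_ (div_pos b a).le hR0
        exact div_le_div₀ hp'.le (S.anti γ' hj) hp (S.anti γ hi))
    rw [Matrix.det_transpose, S.norm_det_m] at h1
    have h2 : (N.factorial : ℝ) * (R * (S.s γ' p / S.s γ p) * R ^ (N - 1)) =
        N.factorial * R ^ N * S.s γ' p / S.s γ p := by
      rw [← hRN]
      ring
    rw [h2, le_div_iff₀ hp, one_mul] at h1
    exact h1

theorem ns_iota (γ : G) : ns (P.ι γ) = ∑ i, S.s γ i ^ 2 := by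
  rw [S.spec γ, ns_mul_unitary (S.uR γ).star, ns_unitary_mul (S.uL γ)]
  unfold ns
  refine Finset.sum_congr rfl fun i _ => ?_
  rw [Finset.sum_eq_single i]
  · rw [Matrix.diagonal_apply_eq, Complex.norm_real, Real.norm_of_nonneg (S.pos γ i).le]
  · intro j _ hj
    rw [Matrix.diagonal_apply_ne _ hj.symm]
    simp
  · intro hi
    exact absurd (Finset.mem_univ i) hi

theorem finite_ratio (R : ℝ) : {γ | ∀ i j, S.s γ i ≤ R * S.s γ j}.Finite := by
  refine (P.fin (N * R ^ 2)).subset fun γ hγ => ?_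
  have hγ' : ∀ i j, S.s γ i ≤ R * S.s γ j := hγ
  change ns (P.ι γ) ≤ N * R ^ 2
  rw [S.ns_iota]
  have h1 : ∀ i, S.s γ i ^ 2 ≤ R ^ 2 := by
    intro i
    have hN : N ≠ 0 := by
      rintro rfl
      exact i.elim0
    have hi := S.pos γ i
    have hR : 0 ≤ R := by
      by_contra hneg
      push Not at hneg
      have := hγ' i i
      nlinarith
    have h2 : S.s γ i ^ N ≤ R ^ N := by
      calc S.s γ i ^ N = ∏ _j : Fin N, S.s γ i := by rw [Finset.prod_const, Finset.card_univ, Fintype.card_fin]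
        _ ≤ ∏ j : Fin N, (R * S.s γ j) := Finset.prod_le_prod (fun _ _ => hi.le) fun j _ => hγ' i j
        _ = R ^ N := by
            rw [Finset.prod_mul_distrib, S.prod_s, mul_one, Finset.prod_const, Finset.card_univ,
              Fintype.card_fin]
    have h3 : S.s γ i ≤ R := (pow_le_pow_iff_left₀ hi.le hR hN).mp h2
    exact pow_le_pow_left₀ hi.le h3 2
  calc ∑ i, S.s γ i ^ 2 ≤ ∑ _i : Fin N, R ^ 2 := Finset.sum_le_sum fun i _ => h1 i
    _ = N * R ^ 2 := by rw [Finset.sum_const, Finset.card_univ, Fintype.card_fin, nsmul_eq_mul]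

/-- ratios of singular values: shift -/
theorem ratio_shift {F : Filter G} {i j : Fin N} (h : Tendsto (fun γ => S.s γ j / S.s γ i) F (𝓝 0)) (g k : G) :
    Tendsto (fun γ => S.s (g⁻¹ * γ * k) j / S.s (g⁻¹ * γ * k) i) F (𝓝 0) := by
  obtain ⟨C, hC, hc⟩ := S.s_compare g k
  have h1 : Tendsto (fun γ => C * C * (S.s γ j / S.s γ i)) F (𝓝 0) := by
    have := h.const_mul (C * C)
    rwa [mul_zero] at this
  refine squeeze_zero (fun γ => (div_pos (S.pos _ j) (S.pos _ i)).le) (fun γ => ?_) h1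
  have a := S.pos γ i
  have b := S.pos (g⁻¹ * γ * k) i
  have c := S.pos γ j
  rw [div_le_iff₀ b]
  have h2 := (hc γ j).1
  have h3 := (hc γ i).2
  calc S.s (g⁻¹ * γ * k) j ≤ C * S.s γ j := h2
    _ = C * (S.s γ j / S.s γ i) * S.s γ i := by field_simp
    _ ≤ C * (S.s γ j / S.s γ i) * (C * S.s (g⁻¹ * γ * k) i) :=
        mul_le_mul_of_nonneg_left h3 (by positivity)
    _ = C * C * (S.s γ j / S.s γ i) * S.s (g⁻¹ * γ * k) i := by ring

end Sv

end Pool.Agent.Helper90.RK
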