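import Pool.Agent.Helper90.RK.Nrm

/-!
# Project RK, block Mp: the measure preserving maps `y ↦ (nrm b C⁻¹) y`
-/

set_option autoImplicit false

open Matrix MeasureTheory

namespace Pool.Agent.Helper90.RK

open Pool.Agent.Helper84.NI

variable {N : ℕ} (b : Fin N → ℕ)

theorem om_bs {A : MN N} (hA : A ∈ GLb b) : IsBs b fun i => (om b A (b i) : ℂ) := by
  refine ⟨fun i => ?_, fun i j h => ?_⟩
  · have h1 : 0 < om b A (b i) := Real.rpow_pos_of_pos (norm_pos_iff.2 (dt_ne b hA i)) _
    simpa using h1.ne'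
  · simp only [h]

/-- the map `y ↦ (nrm b C⁻¹) y` -/
noncomputable def TC (C : MN N) (y : YY N) : YY N := fun j => nrm b C⁻¹ *ᵥ y j

theorem TC_cont (C : MN N) : Continuous (TC b C) := by
  unfold TC
  fun_prop

/-- joint continuity on invertible matrices -/
theorem TC_cont2 : Continuous fun p : {C : MN N // C ∈ GLb b} × YY N => TC b p.1.1 p.2 := by
  have h1 : Continuous fun p : {C : MN N // C ∈ GLb b} × YY N => nrm b (p.1.1)⁻¹ := by
    have h2 : Continuous fun C : {C : MN N // C ∈ GLb b} => nrm b (C.1)⁻¹ :=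
      continuousOn_iff_continuous_domRestrict.1 (nrm_cont b)
    exact h2.comp continuous_fst
  refine continuous_pi fun j => ?_
  exact h1.matrix_mulVec ((continuous_apply j).comp continuous_snd)

theorem TC_one (y : YY N) : TC b 1 y = y := by
  funext j
  simp [TC, nrm_one]

theorem TC_mul {C E : MN N} (hC : C ∈ GLb b) (hE : E ∈ GLb b) (y : YY N) :
    TC b (C * E) y = TC b E (TC b C y) := by
  funext j
  unfold TC
  rw [Matrix.mul_inv_rev, nrm_mul b (GLb_inv b hE) (GLb_inv b hC), Matrix.mulVec_mulVec]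

theorem bs_inv {z : Fin N → ℂ} (hz : IsBs b z) : IsBs b fun i => (z i)⁻¹ :=
  ⟨fun i => inv_ne_zero (hz.1 i), fun i j h => congrArg _ (hz.2 i j h)⟩

theorem bs_mem {z : Fin N → ℂ} (hz : IsBs b z) : diagonal z ∈ GLb b := by
  refine ⟨D_diagonal b z, ?_⟩
  rw [Matrix.det_diagonal]
  exact Finset.prod_ne_zero_iff.2 fun i _ => hz.1 i

theorem bs_comm {z : Fin N → ℂ} (hz : IsBs b z) {A : MN N} (hA : D b A = A) :
    diagonal z * A = A * diagonal z := by
  ext i j
  rw [Matrix.diagonal_mul, Matrix.mul_diagonal]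
  by_cases h : b i = b j
  · rw [hz.2 i j h, mul_comm]
  · have : A i j = 0 := by
      rw [← hA, D_apply, if_neg h]
    rw [this]
    ring

theorem diag_inv {z : Fin N → ℂ} (hz : ∀ i, z i ≠ 0) : (diagonal z)⁻¹ = diagonal fun i => (z i)⁻¹ := by
  apply Matrix.inv_eq_right_inv
  rw [Matrix.diagonal_mul_diagonal, ← Matrix.diagonal_one]
  congr 1
  funext i
  exact mul_inv_cancel₀ (hz i)

theorem TC_scal {z : Fin N → ℂ} (hz : IsBs b z) {C : MN N} (hC : C ∈ GLb b) (y : YY N) :
    TC b (diagonal z * C) y = fun j => (fun i => (‖z i‖ : ℂ) / z i) * TC b C y j := by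
  funext j
  unfold TC
  have h1 : (diagonal z * C)⁻¹ = diagonal (fun i => (z i)⁻¹) * C⁻¹ := by
    rw [bs_comm b hz hC.1, Matrix.mul_inv_rev, diag_inv hz.1]
  rw [h1, nrm_bs b (bs_inv b hz) (GLb_inv b hC), ← Matrix.mulVec_mulVec]
  funext i
  rw [Matrix.mulVec_diagonal, Pi.mul_apply]
  congr 1
  rw [norm_inv]
  push_cast
  have h0 : (‖z i‖ : ℂ) ≠ 0 := by exact_mod_cast (norm_ne_zero_iff.2 (hz.1 i))
  have h2 := hz.1 i
  field_simp

theorem TC_comm {z : Fin N → ℂ} (hz : IsBs b z) {C : MN N} (hC : C ∈ GLb b) (y : YY N) :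
    TC b C (fun j => z * y j) = fun j => z * TC b C y j := by
  funext j
  unfold TC
  have h1 : (z * y j : Fin N → ℂ) = diagonal z *ᵥ y j := by
    funext i
    rw [Matrix.mulVec_diagonal, Pi.mul_apply]
  have h2 : ∀ x : Fin N → ℂ, z * x = diagonal z *ᵥ x := by
    intro x
    funext i
    rw [Matrix.mulVec_diagonal, Pi.mul_apply]
  change nrm b C⁻¹ *ᵥ (z * y j) = z * nrm b C⁻¹ *ᵥ y j
  rw [h1, h2, Matrix.mulVec_mulVec, Matrix.mulVec_mulVec, bs_comm b hz (nrm_mem b (GLb_inv b hC)).1]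

/-- `TC b C` preserves Lebesgue measure -/
theorem TC_mp {C : MN N} (hC : C ∈ GLb b) :
    MeasurePreserving (TC b C) (volume : Measure (YY N)) (volume : Measure (YY N)) := by
  set A := nrm b C⁻¹ with hA
  have hd : ‖A.det‖ = 1 := norm_det_nrm b (GLb_inv b hC)
  have h1 : MeasurePreserving (fun x : Fin N → ℂ => A *ᵥ x) (volume : Measure (Fin N → ℂ)) volume := by
    let f : (Fin N → ℂ) →ₗ[ℂ] (Fin N → ℂ) := Matrix.toLin' A
    have hr : |LinearMap.det (f.restrictScalars ℝ)| = 1 := by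
      rw [LinearMap.det_restrictScalars, Algebra.norm_complex_apply, Complex.normSq_eq_norm_sq,
        LinearMap.det_toLin', hd]
      norm_num
    have hr0 : LinearMap.det (f.restrictScalars ℝ) ≠ 0 := by
      intro h
      rw [h] at hr
      simp at hr
    have h1 := Measure.map_linearMap_addHaar_eq_smul_addHaar (volume : Measure (Fin N → ℂ))
      (f := f.restrictScalars ℝ) hr0
    rw [abs_inv, hr] at h1
    refine ⟨(by fun_prop : Continuous fun x : Fin N → ℂ => A *ᵥ x).measurable, ?_⟩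
    have h2 : (⇑(f.restrictScalars ℝ) : (Fin N → ℂ) → (Fin N → ℂ)) = fun x => A *ᵥ x := by
      funext x
      simp [f, Matrix.toLin'_apply]
    rw [h2] at h1
    simpa using h1
  have h2 := volume_preserving_pi (α' := fun _ : Fin N => Fin N → ℂ) (β' := fun _ : Fin N => Fin N → ℂ)
    (f := fun _ x => A *ᵥ x) (fun _ => h1)
  exact h2

/-- rotations preserve Lebesgue measure -/
theorem rot_mp {z : Fin N → ℂ} (hz : IsBs b z) (h1 : ∀ i, ‖z i‖ = 1) :
    MeasurePreserving (fun y : YY N => (fun j => z * y j : YY N)) (volume : Measure (YY N))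
      (volume : Measure (YY N)) := by
  have h := TC_mp b (bs_mem b (bs_inv b hz))
  convert h using 1
  funext y
  have h2 := TC_scal b (bs_inv b hz) (GLb_one b) y
  rw [Matrix.mul_one, TC_one] at h2
  rw [h2]
  funext j i
  simp [norm_inv, h1 i]

end Pool.Agent.Helper90.RK
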