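import Pool.Agent.Helper90.RK.Fibre

/-!
# Project RK, block Nrm: normalisation of block diagonal matrices

PROOFS. `dt b A β` is the determinant of the block `β` of `A` (over the subtype `{i // b i = β}`). For block diagonal `A`: `toSquareBlock (A B) = toSquareBlock A * toSquareBlock B` (the sum over `k` with
`b k ≠ β` vanishes), so `dt` is multiplicative; `det A = ∏_{β ∈ image b} dt b A β` (`Matrix.BlockTriangular.det`). `om b A β = |dt|^(-1/p)`, `p = #{i // b i = β}`.
`nrm b A = diagonal (om) * A`. `nrm_mul`: `om` is multiplicative and `diagonal (om b B)` commutes with the block diagonal `A`. `nrm_bs`: `dt b (diagonal z A) β = z_β^p dt b A β`, so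
`om b (diagonal z * A) β = |z_β|⁻¹ om b A β`. `norm_det_nrm`: `∏_i om b A (b i) = ∏_β |dt β|⁻¹` (group `i` by `b i`). `nrm_unitary`: the blocks of a block diagonal unitary matrix are unitary, so `|dt| = 1`.
`nrm_cont`: `dt` is a polynomial in the entries, nonzero on `GLb`, inverse is continuous on invertible matrices (`Matrix.inv_def`, `adjugate`).
-/

set_option autoImplicit false

open Filter Topology Matrix MeasureTheory

namespace Pool.Agent.Helper90.RK

open Pool.Agent.Helper84.NI

variable {N : ℕ} (b : Fin N → ℕ)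

/-- determinant of the block `β` -/
noncomputable def dt (A : MN N) (β : ℕ) : ℂ := (A.toSquareBlock b β).det

/-- normalising factor of the block `β` -/
noncomputable def om (A : MN N) (β : ℕ) : ℝ :=
  ‖dt b A β‖ ^ (-(1 : ℝ) / (Fintype.card {i : Fin N // b i = β} : ℝ))

/-- the normalised matrix -/
noncomputable def nrm (A : MN N) : MN N := diagonal (fun i => (om b A (b i) : ℂ)) * A

private theorem nrm_off {A : MN N} (hA : D b A = A) {i j : Fin N} (h : b i ≠ b j) : A i j = 0 := by
  have h1 := congrFun (congrFun hA i) j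
  rw [D_apply, if_neg h] at h1
  exact h1.symm

private theorem nrm_dt_mul {A : MN N} (hA : D b A = A) (B : MN N) (β : ℕ) :
    dt b (A * B) β = dt b A β * dt b B β := by
  unfold dt
  rw [← Matrix.det_mul]
  congr 1
  ext i j
  rw [Matrix.mul_apply]
  simp only [Matrix.toSquareBlock_def, Matrix.of_apply]
  rw [Matrix.mul_apply]
  have h : ∑ k, A i k * B k j =
      ∑ k ∈ Finset.univ.filter (fun k => b k = β), A i k * B k j := by
    rw [Finset.sum_filter]
    refine Finset.sum_congr rfl fun k _ => ?_
    split_ifs with h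
    · rfl
    · rw [nrm_off b hA (by rw [i.2]; exact fun h' => h h'.symm), zero_mul]
  rw [h]
  exact Finset.sum_subtype _ (by simp) _

private theorem nrm_det {A : MN N} (hA : D b A = A) :
    A.det = ∏ β ∈ Finset.univ.image b, dt b A β :=
  Matrix.BlockTriangular.det (fun _ _ h => nrm_off b hA (ne_of_gt h))

private theorem nrm_dt_one (β : ℕ) : dt b (1 : MN N) β = 1 := by
  unfold dt
  have h : (1 : MN N).toSquareBlock b β = 1 := by
    ext i j
    simp only [Matrix.toSquareBlock_def, Matrix.of_apply, Matrix.one_apply, Subtype.ext_iff]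
  rw [h, Matrix.det_one]

theorem dt_ne {A : MN N} (hA : A ∈ GLb b) (i : Fin N) : dt b A (b i) ≠ 0 := by
  have h := hA.2
  rw [nrm_det b hA.1] at h
  exact Finset.prod_ne_zero_iff.1 h (b i) (Finset.mem_image_of_mem b (Finset.mem_univ i))

private theorem nrm_om_pos {A : MN N} (hA : A ∈ GLb b) (i : Fin N) : 0 < om b A (b i) :=
  Real.rpow_pos_of_pos (norm_pos_iff.2 (dt_ne b hA i)) _

private theorem nrm_apply (A : MN N) (i j : Fin N) :
    nrm b A i j = (om b A (b i) : ℂ) * A i j := by
  unfold nrm
  rw [Matrix.diagonal_mul]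

private theorem nrm_D_diag (z : Fin N → ℂ) {A : MN N} (hA : D b A = A) :
    D b (diagonal z * A) = diagonal z * A := by
  ext i j
  rw [D_apply, Matrix.diagonal_mul]
  split_ifs with h
  · rfl
  · rw [nrm_off b hA h, mul_zero]

private theorem nrm_card_pos (i : Fin N) :
    (0 : ℝ) < (Fintype.card {j : Fin N // b j = b i} : ℝ) := by
  have h : Nonempty {j : Fin N // b j = b i} := ⟨⟨i, rfl⟩⟩
  exact_mod_cast Fintype.card_pos


theorem nrm_mem {A : MN N} (hA : A ∈ GLb b) : nrm b A ∈ GLb b := by
  refine ⟨nrm_D_diag b _ hA.1, ?_⟩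
  unfold nrm
  rw [Matrix.det_mul, Matrix.det_diagonal]
  refine mul_ne_zero (Finset.prod_ne_zero_iff.2 fun i _ => ?_) hA.2
  exact Complex.ofReal_ne_zero.2 (nrm_om_pos b hA i).ne'

theorem nrm_one : nrm b (1 : MN N) = 1 := by
  ext i j
  rw [nrm_apply]
  unfold om
  rw [nrm_dt_one, norm_one, Real.one_rpow, Complex.ofReal_one, one_mul]

theorem nrm_mul {A B : MN N} (hA : A ∈ GLb b) (hB : B ∈ GLb b) : nrm b (A * B) = nrm b A * nrm b B := by
  ext i j
  have h1 : om b (A * B) (b i) = om b A (b i) * om b B (b i) := by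
    unfold om
    rw [nrm_dt_mul b hA.1, norm_mul, Real.mul_rpow (norm_nonneg _) (norm_nonneg _)]
  rw [nrm_apply, Matrix.mul_apply, Matrix.mul_apply, h1, Finset.mul_sum]
  refine Finset.sum_congr rfl fun k _ => ?_
  rw [nrm_apply, nrm_apply]
  by_cases h : b i = b k
  · rw [← h]
    push_cast
    ring
  · rw [nrm_off b hA.1 h]
    ring

theorem nrm_bs {z : Fin N → ℂ} (hz : IsBs b z) {A : MN N} (hA : A ∈ GLb b) :
    nrm b (diagonal z * A) = diagonal (fun i => z i / (‖z i‖ : ℂ)) * nrm b A := by
  have h1 : ∀ i, om b (diagonal z * A) (b i) = ‖z i‖⁻¹ * om b A (b i) := by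
    intro i
    unfold om
    have h2 : dt b (diagonal z * A) (b i) =
        z i ^ Fintype.card {j : Fin N // b j = b i} * dt b A (b i) := by
      rw [nrm_dt_mul b (D_diagonal b z)]
      congr 1
      unfold dt
      have h3 : (diagonal z).toSquareBlock b (b i) =
          diagonal fun j : {j : Fin N // b j = b i} => z j := by
        ext j l
        simp only [Matrix.toSquareBlock_def, Matrix.of_apply, Matrix.diagonal_apply,
          Subtype.ext_iff]
      rw [h3, Matrix.det_diagonal]
      rw [Finset.prod_congr rfl (fun j _ => hz.2 j.1 i j.2), Finset.prod_const, Finset.card_univ]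
    rw [h2, norm_mul, norm_pow, Real.mul_rpow (pow_nonneg (norm_nonneg _) _) (norm_nonneg _),
      ← Real.rpow_natCast, ← Real.rpow_mul (norm_nonneg _)]
    have h4 : (Fintype.card {j : Fin N // b j = b i} : ℝ) *
        (-1 / (Fintype.card {j : Fin N // b j = b i} : ℝ)) = -1 := by
      rw [mul_div_assoc', mul_comm, mul_div_assoc, div_self (nrm_card_pos b i).ne', mul_one]
    rw [h4, Real.rpow_neg_one]
  ext i j
  rw [nrm_apply, h1, Matrix.diagonal_mul, Matrix.diagonal_mul, nrm_apply]
  push_cast
  ring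

theorem norm_det_nrm {A : MN N} (hA : A ∈ GLb b) : ‖(nrm b A).det‖ = 1 := by
  have h1 : (nrm b A).det = (∏ i, (om b A (b i) : ℂ)) * A.det := by
    unfold nrm
    rw [Matrix.det_mul, Matrix.det_diagonal]
  have h2 : ∏ i, om b A (b i) = ∏ β ∈ Finset.univ.image b, ‖dt b A β‖⁻¹ := by
    rw [Finset.prod_comp (fun β => om b A β) b]
    refine Finset.prod_congr rfl fun β hβ => ?_
    obtain ⟨i, -, rfl⟩ := Finset.mem_image.1 hβ
    unfold om
    rw [← Real.rpow_natCast, ← Real.rpow_mul (norm_nonneg _), ← Fintype.card_subtype,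
      div_mul_cancel₀ _ (nrm_card_pos b i).ne', Real.rpow_neg_one]
  rw [h1, norm_mul, ← Complex.ofReal_prod, Complex.norm_real, h2,
    Real.norm_of_nonneg (Finset.prod_nonneg fun β _ => inv_nonneg.2 (norm_nonneg _)),
    nrm_det b hA.1, norm_prod, ← Finset.prod_mul_distrib]
  refine Finset.prod_eq_one fun β hβ => ?_
  obtain ⟨i, -, rfl⟩ := Finset.mem_image.1 hβ
  exact inv_mul_cancel₀ (norm_ne_zero_iff.2 (dt_ne b hA i))

theorem nrm_unitary {k : MN N} (hk : k ∈ GLb b) (hu : IsU k) : nrm b k = k := by
  have h1 : ∀ β, ‖dt b k β‖ = 1 := by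
    intro β
    have h2 : dt b (kᴴ * k) β = dt b kᴴ β * dt b k β :=
      nrm_dt_mul b (by rw [D_star, hk.1]) k β
    have h3 : dt b kᴴ β = star (dt b k β) := by
      unfold dt
      rw [← Matrix.det_conjTranspose]
      congr 1
    have hu' : kᴴ * k = 1 := hu
    rw [hu', nrm_dt_one, h3] at h2
    have h4 := congrArg norm h2
    rw [norm_one, norm_mul, norm_star] at h4
    nlinarith [norm_nonneg (dt b k β), h4]
  ext i j
  rw [nrm_apply]
  unfold om
  rw [h1, Real.one_rpow, Complex.ofReal_one, one_mul]

theorem nrm_cont : ContinuousOn (fun C => nrm b C⁻¹) (GLb b) := by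
  have hinv : ContinuousOn (fun C : MN N => C⁻¹) (GLb b) := by
    have h1 : (fun C : MN N => C⁻¹) = fun C => (C.det)⁻¹ • C.adjugate := by
      funext C
      rw [Matrix.inv_def, Ring.inverse_eq_inv']
    rw [h1]
    have ha : ContinuousOn (fun C : MN N => C.det) (GLb b) :=
      (Continuous.matrix_det continuous_id).continuousOn
    have hb : ContinuousOn (fun C : MN N => C.adjugate) (GLb b) :=
      (Continuous.matrix_adjugate continuous_id).continuousOn
    exact (ha.inv₀ fun C hC => hC.2).smul hb
  have hent : ∀ i j : Fin N, ContinuousOn (fun C : MN N => C⁻¹ i j) (GLb b) := fun i j =>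
    (continuous_apply_apply i j).comp_continuousOn hinv
  refine continuousOn_pi.2 fun i => continuousOn_pi.2 fun j => ?_
  have h2 : (fun C : MN N => nrm b C⁻¹ i j) = fun C => (om b C⁻¹ (b i) : ℂ) * C⁻¹ i j := by
    funext C
    rw [nrm_apply]
  show ContinuousOn (fun C : MN N => nrm b C⁻¹ i j) (GLb b)
  rw [h2]
  refine ContinuousOn.mul (Complex.continuous_ofReal.comp_continuousOn ?_) (hent i j)
  unfold om
  refine ContinuousOn.rpow_const (ContinuousOn.norm ?_) fun C hC =>
    Or.inl (norm_ne_zero_iff.2 (dt_ne b (GLb_inv b hC) i))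
  have h3 : Continuous fun C : MN N => dt b C (b i) := by
    unfold dt
    refine Continuous.matrix_det ?_
    refine continuous_matrix fun j l => ?_
    exact continuous_apply_apply (j : Fin N) (l : Fin N)
  exact h3.comp_continuousOn hinv

end Pool.Agent.Helper90.RK
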